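import Pool.Agent.MP_b2c033_nt.UG.Spec

/-! The expansion of the sum over one class of lattice points. -/

namespace Pool.Agent.MP_b2c033_nt.UG

open Polynomial Complex EisensteinSeries
open UpperHalfPlane hiding I
open scoped Real PowerSeries Nat

noncomputable section

namespace CLSx

/-- the indicator of a class -/
def wt (F : Type) [Field F] (N : ℕ) (m c : ℤ) : F := if (c : ZMod N) = (m : ZMod N) then 1 else 0

/-- a twisted divisor sum -/
def ds {F : Type} [Field F] (W : ℕ → F) (u : F) (k : ℕ) : F :=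
  ∑ x ∈ k.divisorsAntidiagonal, W x.1 * (u ^ x.2 * (x.2 : F) ^ 11)

/-- the coefficients -/
def cf {F : Type} [Field F] (P : ℚ[X]) (N : ℕ) (m : ℤ) (w : F) (k : ℕ) : F :=
  ((N : F) ^ 12)⁻¹ * ((if k = 0 then
    wt F N m 0 * ((∑ j ∈ P.support, (P.coeff j : F) * w ^ j) / (1 - w) ^ 12) else 0) +
    ds (fun c => wt F N m c) w k + ds (fun c => wt F N m (-c)) w⁻¹ k)

theorem cf_map {K : Type} [Field K] (i : K →+* ℂ) (P : ℚ[X]) (N : ℕ) (m : ℤ) (w : K) (k : ℕ) :
    i (cf P N m w k) = cf P N m (i w) k := by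
  have e : ∀ c, i (wt K N m c) = wt ℂ N m c := fun c => by
    unfold wt
    split_ifs <;> simp
  unfold cf ds
  split_ifs <;> simp [e]

theorem wt_norm (N : ℕ) (m c : ℤ) : ‖wt ℂ N m c‖ ≤ 1 := by
  unfold wt
  split_ifs <;> simp

theorem lambert (W : ℕ → ℂ) (hW : ∀ c, ‖W c‖ ≤ 1) {u r : ℂ} (hu : ‖u‖ = 1) (hr : ‖r‖ < 1) :
    HasSum (fun k : ℕ => ds W u k * r ^ k)
      (∑' c : ℕ+, W c * ∑' e : ℕ+, u ^ (e : ℕ) * (((e : ℕ) : ℂ) ^ 11 * r ^ (c * e : ℕ))) := by
  have h1 : Summable fun c : ℕ+ × ℕ+ =>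
      W c.1 * (u ^ (c.2 : ℕ) * (((c.2 : ℕ) : ℂ) ^ 11 * r ^ (c.1 * c.2 : ℕ))) := by
    refine Summable.of_norm_bounded (summable_prod_mul_pow 11 hr).norm fun c => ?_
    rw [norm_mul, norm_mul, norm_pow, hu, one_pow, one_mul]
    exact mul_le_of_le_one_left (norm_nonneg _) (hW _)
  have h2 := h1.hasSum
  rw [h1.tsum_prod] at h2
  simp only [tsum_mul_left] at h2
  have h3 := (sigmaAntidiagonalEquivProd.hasSum_iff.2 h2).sigma fun n => hasSum_fintype _
  have h4 : ∀ n : ℕ+, ∑ x : Nat.divisorsAntidiagonal n, ((fun c : ℕ+ × ℕ+ =>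
      W c.1 * (u ^ (c.2 : ℕ) * (((c.2 : ℕ) : ℂ) ^ 11 * r ^ (c.1 * c.2 : ℕ)))) ∘
        sigmaAntidiagonalEquivProd) ⟨n, x⟩ = ds W u n * r ^ (n : ℕ) := by
    intro n
    rw [ds, Finset.sum_mul, ← Finset.sum_coe_sort (n : ℕ).divisorsAntidiagonal]
    refine Finset.sum_congr rfl fun x _ => ?_
    change W x.1.1 * (u ^ x.1.2 * (((x.1.2 : ℕ) : ℂ) ^ 11 * r ^ (x.1.1 * x.1.2 : ℕ))) = _
    rw [(Nat.mem_divisorsAntidiagonal.1 x.2).1, mul_assoc, mul_assoc]
  simp only [h4] at h3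
  have h5 := (hasSum_pnat_iff (f := fun n : ℕ => ds W u n * r ^ n)).1 h3
  simpa [ds] using h5

/-- the sum over one row of the class -/
def row (N : ℕ) (n : ℤ) (z : ℍ) (c : ℤ) : ℂ := ∑' e : ℤ, wt ℂ N n e * eisSummand 12 ![c, e] z

theorem row_neg (N : ℕ) (n : ℤ) (z : ℍ) (c : ℤ) : row N n z (-c) = row N (-n) z c := by
  unfold row
  rw [← (Equiv.neg ℤ).tsum_eq]
  refine tsum_congr fun d => ?_
  simp only [eisSummand, Equiv.neg_apply, Matrix.cons_val_zero, Matrix.cons_val_one,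
    Matrix.cons_val_fin_one, wt]
  push_cast
  rw [show -(c : ℂ) * z + -(d : ℂ) = -(c * z + d) by ring, Even.neg_zpow (by decide)]
  simp only [neg_eq_iff_eq_neg]

theorem row_eq {N : ℕ} (hN : 0 < N) (n : ℤ) (z : ℍ) (c : ℤ) : row N n z c =
    ((N : ℂ) ^ 12)⁻¹ * ∑' k : ℤ, (((c * z + n) / N + k : ℂ) ^ 12)⁻¹ := by
  have h0 : (N : ℂ) ≠ 0 := Nat.cast_ne_zero.2 hN.ne'
  have hg : Function.Injective fun k : ℤ => n + N * k := fun a b h =>
    mul_left_cancel₀ (Int.natCast_ne_zero.2 hN.ne') (add_left_cancel h)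
  unfold row
  rw [← hg.tsum_eq, ← tsum_mul_left]
  · refine tsum_congr fun k => ?_
    simp only [eisSummand, Matrix.cons_val_zero, Matrix.cons_val_one, Matrix.cons_val_fin_one, wt]
    rw [if_pos (by simp), one_mul, ← mul_inv, ← mul_pow, zpow_neg]
    refine congrArg _ ((zpow_natCast _ 12).trans (congrArg (· ^ 12) ?_))
    push_cast
    field_simp
    ring
  · intro e he
    have h1 : (e : ZMod N) = n := by
      by_contra q
      exact he (by simp [wt, q])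
    obtain ⟨k, hk⟩ := (ZMod.intCast_eq_intCast_iff_dvd_sub n e N).1 h1.symm
    exact ⟨k, by simp only [← hk, add_sub_cancel]⟩

theorem kap_mul : kap * ((-2 * π * I) ^ (11 + 1) / (11 : ℕ)!) = 1 := by
  refine inv_mul_cancel₀ (div_ne_zero (pow_ne_zero _ ?_)
    (by exact_mod_cast Nat.factorial_ne_zero 11))
  simp [Real.pi_ne_zero]

/-- the root of unity -/
def rt (N : ℕ) (n : ℤ) : ℂ := cexp (2 * π * I * ((n / N : ℝ) : ℂ))

theorem rt_norm (N : ℕ) (n : ℤ) : ‖rt N n‖ = 1 := by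
  rw [rt, show 2 * π * I * ((n / N : ℝ) : ℂ) = ((2 * π * (n / N) : ℝ) : ℂ) * I by
    push_cast
    ring]
  exact norm_exp_ofReal_mul_I _

theorem rt_neg (N : ℕ) (n : ℤ) : rt N (-n) = (rt N n)⁻¹ := by
  rw [rt, rt, ← Complex.exp_neg]
  push_cast
  ring_nf

theorem row_pos {N : ℕ} (hN : 0 < N) (n : ℤ) (z : ℍ) (c : ℕ+) : kap * row N n z c =
    ((N : ℂ) ^ 12)⁻¹ *
      ∑' e : ℕ+, rt N n ^ (e : ℕ) * (((e : ℕ) : ℂ) ^ 11 * qN N z ^ (c * e : ℕ)) := by
  have H := qExpansion_identity_pnat (k := 11) (by norm_num) ⟨((c : ℕ) * z + n) / N, by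
    rw [Complex.div_natCast_im]
    exact div_pos (by simpa using z.2) (Nat.cast_pos.2 hN)⟩
  simp only [one_div] at H
  rw [row_eq hN, mul_left_comm]
  refine congrArg _ (((congrArg (kap * ·) H).trans ?_))
  rw [← mul_assoc, kap_mul, one_mul]
  refine tsum_congr fun e => ?_
  rw [mul_left_comm]
  refine congrArg _ ?_
  rw [rt, qN, ← Complex.exp_nat_mul, ← Complex.exp_nat_mul, ← Complex.exp_nat_mul,
    ← Complex.exp_add]
  push_cast
  ring_nf

theorem cls_eq (N : ℕ) (m n : ℤ) (z : ℍ) : Summable (fun c : ℤ => wt ℂ N m c * row N n z c) ∧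
    Cls N m n z = ∑' c : ℤ, wt ℂ N m c * row N n z c := by
  have h0 := summable_prod_eisSummand (k := 12) (by norm_num) z
  have h1 : Summable fun x : ℤ × ℤ =>
      wt ℂ N m x.1 * (wt ℂ N n x.2 * eisSummand 12 ![x.1, x.2] z) := by
    refine Summable.of_norm_bounded h0.norm fun x => ?_
    rw [norm_mul, norm_mul]
    exact (mul_le_of_le_one_left (by positivity) (wt_norm N m _)).trans
      (mul_le_of_le_one_left (norm_nonneg _) (wt_norm N n _))
  refine ⟨by simpa only [tsum_mul_left, row] using h1.prod, ?_⟩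
  have h2 := h1.tsum_prod
  simp only [tsum_mul_left] at h2
  refine Eq.trans ?_ h2
  unfold Cls
  rw [← (finTwoArrowEquiv ℤ).symm.tsum_eq]
  refine tsum_congr fun x => ?_
  simp only [finTwoArrowEquiv_symm_apply, Matrix.cons_val_zero, Matrix.cons_val_one,
    Matrix.cons_val_fin_one, wt, ite_and]
  split_ifs <;> simp

theorem expN {P : ℚ[X]} (hP : ∀ x : ℝ, (∀ n : ℤ, x ≠ n) →
      kap * ∑' n : ℤ, (((x : ℂ) + n) ^ 12)⁻¹ =
        aeval (cexp (2 * π * I * x)) P / (1 - cexp (2 * π * I * x)) ^ 12)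
    {N : ℕ} (hN : 0 < N) {m n : ℤ} (h : ¬((m : ZMod N) = 0 ∧ (n : ZMod N) = 0)) :
    ExpN N (PowerSeries.mk (cf P N m (rt N n))) fun z => kap * Cls N m n z := by
  intro z
  have hq : ‖qN N z‖ < 1 := by
    have := norm_exp_two_pi_I_lt_one ⟨z / N, by
      rw [Complex.div_natCast_im]
      exact div_pos z.2 (Nat.cast_pos.2 hN)⟩
    rwa [qN, mul_div_assoc]
  have h1 := lambert (fun c : ℕ => wt ℂ N m c) (fun c => wt_norm N m c) (rt_norm N n) hq
  have h2 := lambert (fun c : ℕ => wt ℂ N m (-c)) (fun c => wt_norm N m _) (rt_norm N (-n)) hq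
  set c₀ : ℂ := wt ℂ N m 0 *
    ((∑ j ∈ P.support, (P.coeff j : ℂ) * rt N n ^ j) / (1 - rt N n) ^ 12) with hc
  have h3 : HasSum (fun k : ℕ => (if k = 0 then c₀ else 0) * qN N z ^ k) c₀ := by
    simpa using hasSum_single (f := fun k : ℕ => (if k = 0 then c₀ else 0) * qN N z ^ k) 0
      fun k hk => by simp [hk]
  have h4 : kap * (wt ℂ N m 0 * row N n z 0) = ((N : ℂ) ^ 12)⁻¹ * c₀ := by
    rw [hc, wt]
    split_ifs with q
    swap
    · simp
    have h5 := hP (n / N) fun k e => h ⟨by simpa using q.symm, by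
      rw [div_eq_iff (Nat.cast_ne_zero.2 hN.ne')] at e
      have : n = k * N := by exact_mod_cast e
      simp [this]⟩
    rw [aeval_def, eval₂_eq_sum, Polynomial.sum_def] at h5
    rw [one_mul, one_mul, row_eq hN, mul_left_comm]
    refine congrArg _ (Eq.trans ?_ h5)
    simp
  obtain ⟨hs, he⟩ := cls_eq N m n z
  have h5 := ((h3.add h1).add h2).mul_left ((N : ℂ) ^ 12)⁻¹
  simp only [PowerSeries.coeff_mk]
  rw [he, tsum_int_eq_zero_add_tsum_pnat hs, mul_add, mul_add, h4, ← tsum_mul_left,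
    ← tsum_mul_left]
  simp only [row_neg, mul_left_comm kap, row_pos hN, mul_left_comm _ ((N : ℂ) ^ 12)⁻¹,
    tsum_mul_left, ← mul_add]
  have h6 : ∀ k, cf P N m (rt N n) k * qN N z ^ k = ((N : ℂ) ^ 12)⁻¹ *
      ((if k = 0 then c₀ else 0) * qN N z ^ k + ds (fun c => wt ℂ N m c) (rt N n) k * qN N z ^ k +
        ds (fun c => wt ℂ N m (-c)) (rt N (-n)) k * qN N z ^ k) := fun k => by
    rw [cf, rt_neg, ← hc]
    ring
  simp only [h6]
  exact h5

end CLSx

open CLSx in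
theorem cls (h : S_CST) : S_CLS := by
  intro K _ i i' N d m n ζ hN hd h1 h2 h3
  obtain ⟨P, hP⟩ := h
  have e : ∀ (j : K →+* ℂ) (a : ℤ), j ζ = U.ee (a / N) →
      PowerSeries.map j (PowerSeries.mk (cf P N m (ζ ^ n))) =
        PowerSeries.mk (cf P N m (rt N (a * n))) := fun j a q => by
    ext k
    rw [PowerSeries.coeff_map, PowerSeries.coeff_mk, PowerSeries.coeff_mk, cf_map, map_zpow₀, q,
      U.ee, rt, ← Complex.exp_int_mul]
    push_cast
    ring_nf
  refine ⟨PowerSeries.mk (cf P N m (ζ ^ n)), ?_, ?_⟩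
  · rw [e i 1 (by simpa using h1), one_mul]
    exact expN hP (by omega) h3
  · rw [e i' d h2]
    refine expN hP (by omega) fun q => h3 ⟨q.1, ?_⟩
    obtain ⟨a, b, hab⟩ := hd
    have h4 := congrArg (fun x : ℤ => ((x * n : ℤ) : ZMod N)) hab
    have h5 := q.2
    push_cast at h4 h5
    rw [ZMod.natCast_self] at h4
    linear_combination a * h5 - h4

end

end Pool.Agent.MP_b2c033_nt.UG
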