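import Pool.Agent.MP_b2c033_nt.UG.Spec

/-! The Lipschitz series is a rational function of the nome, up to the real line. -/

namespace Pool.Agent.MP_b2c033_nt.UG

open Filter Polynomial
open UpperHalfPlane hiding I
open scoped Real Topology

namespace CSTx

lemma eulk (m : ℕ) : ∀ k < m, ∃ P : ℚ[X], ∀ w : ℂ, ‖w‖ < 1 →
    HasSum (fun n : ℕ => (n : ℂ) ^ k * w ^ n) (aeval w P / (1 - w) ^ m) := by
  induction m with
  | zero => intro k hk; omega
  | succ m ih =>
    choose! P hP using ih
    intro k hk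
    have h1 : ∀ w : ℂ, ‖w‖ < 1 → 1 - w ≠ 0 := fun w hw h => by
      have : w = 1 := by linear_combination -h
      simp [this] at hw
    rcases Nat.eq_zero_or_pos k with rfl | hk0
    · refine ⟨(1 - X) ^ m, fun w hw => ?_⟩
      have e : aeval w ((1 - X : ℚ[X]) ^ m) / (1 - w) ^ (m + 1) = (1 - w)⁻¹ := by
        have := h1 w hw
        simp only [map_pow, map_sub, map_one, aeval_X]
        field_simp
        ring
      rw [e]
      simpa using hasSum_geometric_of_norm_lt_one hw
    · refine ⟨X * ∑ j ∈ Finset.range k, P j * (k.choose j : ℚ[X]), fun w hw => ?_⟩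
      have hS := (summable_pow_mul_geometric_of_norm_lt_one (R := ℂ) k hw).hasSum
      set S := ∑' n : ℕ, (n : ℂ) ^ k * w ^ n with hSd
      have h2 := (hasSum_nat_add_iff' 1).2 hS
      have h3 : HasSum (fun n : ℕ => w * (∑ j ∈ Finset.range k, (n : ℂ) ^ j * w ^ n * k.choose j
          + (n : ℂ) ^ k * w ^ n))
          (w * (∑ j ∈ Finset.range k, aeval w (P j) / (1 - w) ^ m * k.choose j + S)) :=
        ((hasSum_sum fun j hj => (hP j (by have := Finset.mem_range.1 hj; omega) w hw).mul_right
          _).add hS).mul_left w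
      have h4 : (fun n : ℕ => w * (∑ j ∈ Finset.range k, (n : ℂ) ^ j * w ^ n * k.choose j
          + (n : ℂ) ^ k * w ^ n)) = fun n : ℕ => ((n + 1 : ℕ) : ℂ) ^ k * w ^ (n + 1) := by
        funext n
        push_cast
        rw [add_pow, Finset.sum_range_succ, add_mul, Finset.sum_mul, mul_add, Finset.mul_sum]
        congr 1
        · exact Finset.sum_congr rfl fun j _ => by ring
        · simp; ring
      rw [h4] at h3
      have h5 := h2.unique h3
      have h6 : ∑ i ∈ Finset.range 1, ((i : ℕ) : ℂ) ^ k * w ^ i = 0 := by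
        simp [hk0.ne']
      rw [h6, sub_zero] at h5
      have h7 : ∑ j ∈ Finset.range k, aeval w (P j) / (1 - w) ^ m * (k.choose j : ℂ) =
          (∑ j ∈ Finset.range k, aeval w (P j) * (k.choose j : ℂ)) / (1 - w) ^ m := by
        rw [Finset.sum_div]
        exact Finset.sum_congr rfl fun j _ => by ring
      rw [h7] at h5
      have e : aeval w (X * ∑ j ∈ Finset.range k, P j * (k.choose j : ℚ[X])) / (1 - w) ^ (m + 1)
          = S := by
        have := h1 w hw
        simp only [map_mul, aeval_X, map_sum, map_natCast]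
        rw [pow_succ, ← div_div, div_eq_iff this, mul_div_assoc]
        linear_combination -h5
      rw [e]
      exact hS

lemma cont {x : ℝ} (hx : ∀ n : ℤ, x ≠ n) :
    Continuous fun t : ℝ => ∑' n : ℤ, ((((x : ℂ) + t * Complex.I) + n) ^ 12)⁻¹ := by
  have hb : ∀ (n : ℤ) (t : ℝ), |(n : ℝ) + x| ≤ ‖((x : ℂ) + t * Complex.I) + n‖ := fun n t => by
    have := Complex.abs_re_le_norm (((x : ℂ) + t * Complex.I) + n)
    simpa [add_comm] using this
  have hp : ∀ n : ℤ, 0 < |(n : ℝ) + x| := fun n => abs_pos.2 fun h =>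
    hx (-n) (by push_cast; linarith)
  refine continuous_tsum (u := fun n : ℤ => 1 / |(n : ℝ) + x| ^ (12 : ℝ)) (fun n => ?_)
    ((Real.summable_one_div_int_add_rpow x 12).2 (by norm_num)) fun n t => ?_
  · refine Continuous.inv₀ (by fun_prop) fun t => pow_ne_zero _ ?_
    exact norm_pos_iff.1 ((hp n).trans_le (hb n t))
  · rw [norm_inv, norm_pow, one_div, show (12 : ℝ) = (12 : ℕ) by norm_num, Real.rpow_natCast]
    exact inv_anti₀ (pow_pos (hp n) _) (pow_le_pow_left₀ (hp n).le (hb n t) _)

end CSTx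

open CSTx in
theorem eul : S_EUL := eulk 12 11 (by norm_num)

open CSTx in
theorem cst : S_CST := by
  obtain ⟨P, hP⟩ := eul
  refine ⟨P, fun x hx => ?_⟩
  have hK : ((-2 * π * Complex.I) ^ 12 / (Nat.factorial 11 : ℕ) : ℂ) ≠ 0 := by
    refine div_ne_zero (pow_ne_zero _ ?_) (by exact_mod_cast Nat.factorial_ne_zero 11)
    simp [Real.pi_ne_zero]
  have h0 : 1 - Complex.exp (2 * π * Complex.I * x) ≠ 0 := fun h => by
    obtain ⟨n, hn⟩ := Complex.exp_eq_one_iff.1 (sub_eq_zero.1 h).symm
    refine hx n ?_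
    have h2 : (x : ℂ) = n := by
      refine mul_left_cancel₀ Complex.two_pi_I_ne_zero ?_
      rw [hn]; ring
    exact_mod_cast h2
  have c1 : ContinuousAt (fun t : ℝ =>
      kap * ∑' n : ℤ, ((((x : ℂ) + t * Complex.I) + n) ^ 12)⁻¹) 0 :=
    (continuous_const.mul (cont hx)).continuousAt
  have ce : Continuous fun t : ℝ => Complex.exp (2 * π * Complex.I * (x + t * Complex.I)) := by
    fun_prop
  have c2 : ContinuousAt (fun t : ℝ =>
      aeval (Complex.exp (2 * π * Complex.I * (x + t * Complex.I))) P /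
        (1 - Complex.exp (2 * π * Complex.I * (x + t * Complex.I))) ^ 12) 0 := by
    refine ContinuousAt.div (P.continuous_aeval.comp ce).continuousAt
      ((continuous_const.sub ce).pow 12).continuousAt (pow_ne_zero _ ?_)
    simpa using h0
  have he : ∀ᶠ t : ℝ in 𝓝[>] 0, kap * ∑' n : ℤ, ((((x : ℂ) + t * Complex.I) + n) ^ 12)⁻¹ =
      aeval (Complex.exp (2 * π * Complex.I * (x + t * Complex.I))) P /
        (1 - Complex.exp (2 * π * Complex.I * (x + t * Complex.I))) ^ 12 := by
    filter_upwards [self_mem_nhdsWithin] with t ht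
    have hz : 0 < ((x : ℂ) + t * Complex.I).im := by simpa using ht
    have H := EisensteinSeries.qExpansion_identity (k := 11) (by norm_num) ⟨_, hz⟩
    have hq := norm_exp_two_pi_I_lt_one ⟨_, hz⟩
    rw [(hP _ hq).tsum_eq] at H
    simp only [one_div] at H
    change ∑' n : ℤ, ((((x : ℂ) + t * Complex.I) + n) ^ 12)⁻¹ =
      (-2 * π * Complex.I) ^ 12 / (Nat.factorial 11 : ℕ) *
      (aeval (Complex.exp (2 * π * Complex.I * (x + t * Complex.I))) P /
        (1 - Complex.exp (2 * π * Complex.I * (x + t * Complex.I))) ^ 12) at H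
    rw [H, kap, inv_mul_cancel_left₀ hK]
  have := tendsto_nhds_unique_of_eventuallyEq (c1.tendsto.mono_left nhdsWithin_le_nhds)
    (c2.tendsto.mono_left nhdsWithin_le_nhds) he
  simpa using this

end Pool.Agent.MP_b2c033_nt.UG
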