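import Pool.Agent.MP_b2c033_nt.UG.Spec

/-! Cyclotomic fields and their embeddings. -/

namespace Pool.Agent.MP_b2c033_nt.UG

open Polynomial

namespace CYCx

theorem prim {N : ℕ} {d : ℤ} (hN : 0 < N) (h : IsCoprime d N) :
    IsPrimitiveRoot (U.ee (d / N)) N := by
  simpa [U.ee] using Complex.isPrimitiveRoot_exp_of_isCoprime d N hN.ne' h

theorem prim1 {N : ℕ} (hN : 0 < N) : IsPrimitiveRoot (U.ee (1 / N)) N := by
  simpa using prim hN isCoprime_one_left

theorem ee_pow (N j : ℕ) : U.ee (1 / N) ^ j = U.ee ((j : ℤ) / N) := by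
  rw [U.ee, U.ee, ← Complex.exp_nat_mul]
  congr 1
  push_cast
  ring

/-- The abstract cyclotomic field. -/
theorem emb {N : ℕ} (hN : 0 < N) : ∃ (K : Type) (_ : Field K) (_ : Algebra ℚ K) (ζ : K),
    IsPrimitiveRoot ζ N ∧ IsGalois ℚ K ∧ FiniteDimensional ℚ K ∧
    (∀ k : K, ∃ P : ℚ[X], k = aeval ζ P) ∧
    ∀ y : ℂ, IsPrimitiveRoot y N → ∃ i : K →ₐ[ℚ] ℂ, i ζ = y := by
  have : NeZero N := ⟨hN.ne'⟩
  have : IsCyclotomicExtension {N} ℚ (CyclotomicField N ℚ) :=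
    CyclotomicField.isCyclotomicExtension N ℚ
  have h := IsCyclotomicExtension.zeta_spec N ℚ (CyclotomicField N ℚ)
  refine ⟨CyclotomicField N ℚ, _, _, _, h, IsCyclotomicExtension.isGalois {N} ℚ _,
    IsCyclotomicExtension.finiteDimensional {N} ℚ _, fun k => ?_, fun y hy => ?_⟩
  · simpa using (h.powerBasis ℚ).exists_eq_aeval' k
  · refine ⟨(h.powerBasis ℚ).lift y ?_, by simpa using (h.powerBasis ℚ).lift_gen y _⟩
    rw [IsPrimitiveRoot.powerBasis_gen, ← cyclotomic_eq_minpoly_rat h hN, cyclotomic_eq_minpoly_rat hy hN,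
      minpoly.aeval]

end CYCx

open CYCx in
theorem cyc : S_CYC where
  zero N d P hN h := by
    rw [← minpoly.dvd_iff, ← minpoly.dvd_iff, ← cyclotomic_eq_minpoly_rat (prim hN h) hN,
      ← cyclotomic_eq_minpoly_rat (prim1 hN) hN]
  fix N x hN h := by
    have : NeZero N := ⟨hN.ne'⟩
    obtain ⟨K, _, _, ζ, h1, _, _, -, h2⟩ := emb hN
    obtain ⟨i, hi⟩ := h2 _ (prim1 hN)
    obtain ⟨P, hP, -⟩ := h 1 isCoprime_one_left
    have e : i (aeval ζ P) = x := by rw [← aeval_algHom_apply, hi, hP]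
    obtain ⟨r, hr⟩ := (IsGalois.mem_range_algebraMap_iff_fixed (F := ℚ) (aeval ζ P)).2 fun σ => by
      obtain ⟨j, -, j1, j2⟩ := h1.isPrimitiveRoot_iff.1 (h1.map_of_injective σ.injective)
      obtain ⟨Q, q1, q2⟩ := h j j1.isCoprime
      have e1 : aeval ζ P = aeval ζ Q := i.injective (by
        change i _ = i _
        rw [e, ← aeval_algHom_apply, hi, q1])
      refine i.injective ?_
      change i _ = i _
      rw [e, e1, ← aeval_algHom_apply, ← j2, ← aeval_algHom_apply, map_pow, hi, ee_pow, q2]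
    exact ⟨r, by rw [← e, ← hr, i.commutes, eq_ratCast]⟩
  field N d hN h := by
    obtain ⟨K, _, _, ζ, -, -, -, h1, h2⟩ := emb hN
    obtain ⟨i, hi⟩ := h2 _ (prim1 hN)
    obtain ⟨i', hi'⟩ := h2 _ (prim hN h)
    refine ⟨K, _, i, i', ζ, hi, hi', fun k => ?_⟩
    obtain ⟨P, rfl⟩ := h1 k
    exact ⟨P, hi ▸ (aeval_algHom_apply i ζ P).symm, hi' ▸ (aeval_algHom_apply i' ζ P).symm⟩

end Pool.Agent.MP_b2c033_nt.UG
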