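import Pool.Agent.MP_b2c033_nt.UG.Spec

/-! The Eisenstein series over a fibre is a finite sum of class sums. -/

namespace Pool.Agent.MP_b2c033_nt.UG

open Filter CongruenceSubgroup EisensteinSeries
open UpperHalfPlane hiding I
open Pool.Agent.MP_b2c033_nt.H87

noncomputable section

namespace EISPx

/-- the class sum, indexed by residues -/
def Cz (N : ℕ) (m n : ZMod N) (z : ℍ) : ℂ :=
  ∑' v : Fin 2 → ℤ, if (v 0 : ZMod N) = m ∧ (v 1 : ZMod N) = n then eisSummand 12 v z else 0

lemma cls_eq (N : ℕ) (m n : ℤ) (z : ℍ) : Cls N m n z = Cz N m n z := rfl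

lemma summ (p : (Fin 2 → ℤ) → Prop) [DecidablePred p] (z : ℍ) :
    Summable fun v : Fin 2 → ℤ => if p v then eisSummand 12 v z else 0 := by
  refine Summable.of_norm_bounded (summable_norm_eisSummand (k := 12) (by norm_num) z) fun v => ?_
  split_ifs
  · exact le_rfl
  · rw [norm_zero]
    exact norm_nonneg _

lemma decomp (N : ℕ) [NeZero N] (l₀ l₁ l₁' d d' : ZMod N) (hd : d * d' = 1) (hl : l₁' * d = l₁)
    (z : ℍ) : Eis N l₀ l₁' z =
      ∑ w : ZMod N × ZMod N, if l₀ * w.1 + l₁ * w.2 = 1 then Cz N w.1 (d * w.2) z else 0 := by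
  have h1 : ∀ w : ZMod N × ZMod N,
      (if l₀ * w.1 + l₁ * w.2 = 1 then Cz N w.1 (d * w.2) z else 0) =
      ∑' v : Fin 2 → ℤ, if l₀ * w.1 + l₁ * w.2 = 1 ∧ (v 0 : ZMod N) = w.1 ∧
        (v 1 : ZMod N) = d * w.2 then eisSummand 12 v z else 0 := by
    intro w
    by_cases hw : l₀ * w.1 + l₁ * w.2 = 1
    · simp only [hw, if_true, true_and, Cz]
    · simp only [hw, if_false, false_and, tsum_zero]
  simp only [h1]
  rw [← Summable.tsum_finsetSum fun w _ => summ _ z]
  refine tsum_congr fun v => ?_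
  rw [Finset.sum_eq_single ((v 0 : ZMod N), d' * (v 1 : ZMod N))]
  · have e1 : l₁ * (d' * (v 1 : ZMod N)) = l₁' * (v 1 : ZMod N) := by
      rw [← hl]
      linear_combination l₁' * (v 1 : ZMod N) * hd
    have e2 : d * (d' * (v 1 : ZMod N)) = (v 1 : ZMod N) := by
      rw [← mul_assoc, hd, one_mul]
    simp only [e1, e2, and_self, and_true]
  · intro w _ hw
    rw [if_neg]
    rintro ⟨-, h2, h3⟩
    apply hw
    refine Prod.ext h2.symm ?_
    show w.2 = d' * (v 1 : ZMod N)
    rw [h3]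
    linear_combination -w.2 * hd
  · intro hh
    exact absurd (Finset.mem_univ _) hh

lemma pair_zero (hp : S_PAIR) {K : Type} [Field K] (i i' : K →+* ℂ) (N : ℕ) :
    Pair i i' N (fun _ => 0) fun _ => 0 := by
  simpa using hp.const K i i' N 0

lemma pair_sum (hp : S_PAIR) {K : Type} [Field K] (i i' : K →+* ℂ) {N : ℕ} (hN : 0 < N)
    {ι : Type} (s : Finset ι) (φ φ' : ι → ℍ → ℂ) (h : ∀ w ∈ s, Pair i i' N (φ w) (φ' w)) :
    Pair i i' N (fun z => ∑ w ∈ s, φ w z) fun z => ∑ w ∈ s, φ' w z := by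
  classical
  induction s using Finset.induction_on with
  | empty => simpa using pair_zero hp i i' N
  | insert a s ha ih =>
    simp only [Finset.sum_insert ha]
    exact hp.add K i i' N _ _ _ _ hN (h a (Finset.mem_insert_self _ _))
      (ih fun w hw => h w (Finset.mem_insert_of_mem hw))

end EISPx

open EISPx in
theorem eisp (h : S_CLS) (hp : S_PAIR) : S_EISP := by
  intro K _ i i' N d ζ l₀ l₁ l₁' hN hd hi hi' hl
  have : NeZero N := ⟨by omega⟩
  have : Nontrivial (ZMod N) := ZMod.nontrivial_iff.2 (by omega)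
  obtain ⟨a, b, hab⟩ := id hd
  have hda : (d : ZMod N) * (a : ZMod N) = 1 := by
    have := congrArg (Int.cast : ℤ → ZMod N) hab
    push_cast at this
    rw [ZMod.natCast_self, mul_zero, add_zero] at this
    linear_combination this
  have e1 : (fun z => kap * Eis N l₀ l₁ z) = fun z => ∑ w : ZMod N × ZMod N,
      if l₀ * w.1 + l₁ * w.2 = 1 then kap * Cz N w.1 w.2 z else 0 := by
    funext z
    rw [decomp N l₀ l₁ l₁ 1 1 (one_mul 1) (mul_one _) z, Finset.mul_sum]
    simp only [one_mul, mul_ite, mul_zero]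
  have e2 : (fun z => kap * Eis N l₀ l₁' z) = fun z => ∑ w : ZMod N × ZMod N,
      if l₀ * w.1 + l₁ * w.2 = 1 then kap * Cz N w.1 (d * w.2) z else 0 := by
    funext z
    rw [decomp N l₀ l₁ l₁' d a hda hl z, Finset.mul_sum]
    simp only [mul_ite, mul_zero]
  rw [e1, e2]
  have hN0 : 0 < N := by omega
  refine pair_sum hp i i' hN0 (Finset.univ : Finset (ZMod N × ZMod N))
    (fun w z => if l₀ * w.1 + l₁ * w.2 = 1 then kap * Cz N w.1 w.2 z else 0)
    (fun w z => if l₀ * w.1 + l₁ * w.2 = 1 then kap * Cz N w.1 (d * w.2) z else 0) fun w _ => ?_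
  by_cases hw : l₀ * w.1 + l₁ * w.2 = 1
  · simp only [hw, if_true]
    obtain ⟨m, hm⟩ := ZMod.intCast_surjective w.1
    obtain ⟨n, hn⟩ := ZMod.intCast_surjective w.2
    have key := h K i i' N d m n ζ hN hd hi hi' (by
      rintro ⟨h1, h2⟩
      rw [← hm, ← hn, h1, h2, mul_zero, mul_zero, add_zero] at hw
      exact zero_ne_one hw)
    simp only [cls_eq, Int.cast_mul, hm, hn] at key
    exact key
  · simp only [hw, if_false]
    exact pair_zero hp i i' N

end

end Pool.Agent.MP_b2c033_nt.UG
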