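import Pool.Agent.MP_b2c033_nt.UG.Spec

/-! Expansions of realised forms in the nome of level `N`. -/

namespace Pool.Agent.MP_b2c033_nt.UG

open Filter Polynomial CongruenceSubgroup
open UpperHalfPlane hiding I
open scoped Real Manifold MatrixGroups Topology PowerSeries

namespace EXPx

theorem mob (γ : SL(2, ℤ)) (z : ℍ) : U.mob (U.ofZ γ) z = γ • z := by
  have h : (((U.ofZ γ).a : ℂ) * (z : ℂ) + (U.ofZ γ).b) / ((U.ofZ γ).c * (z : ℂ) + (U.ofZ γ).d) =
      ((γ • z : ℍ) : ℂ) := by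
    rw [UpperHalfPlane.specialLinearGroup_apply]
    simp [U.ofZ]
  unfold U.mob
  rw [h, ofComplex_apply]

theorem sl (γ : SL(2, ℤ)) (f : ℍ → ℂ) : U.sl (U.ofZ γ) f = sl2 f γ := by
  funext z
  unfold U.sl sl2
  rw [mob, U.det_ofZ]
  simp only [U.ofZ, Rat.cast_one, Rat.cast_intCast]
  ring

theorem supp {V : Type} [NormedAddCommGroup V] [InnerProductSpace ℂ V] (C : U.CS V) (N : ℕ)
    (w : V) (hN : 0 < N) (h : C.act (U.Tr N) w = w) (ν : ℚ) (hν : C.β ν w ≠ 0) :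
    ∃ n : ℕ, ν = n / N := by
  have h1 := C.β_Tr N ν w
  rw [h] at h1
  have h2 : U.ee (ν * N) = 1 := by
    apply mul_right_cancel₀ hν
    rw [← h1, one_mul]
  obtain ⟨m, hm⟩ := Complex.exp_eq_one_iff.1 h2
  have h3 : ((ν * N : ℚ) : ℂ) = (m : ℂ) := by
    apply mul_left_cancel₀ Complex.two_pi_I_ne_zero
    rw [hm]; ring
  have h4 : ν * N = m := by exact_mod_cast h3
  have hp : 0 < ν := by
    by_contra hc
    exact hν (C.β_neg ν w (not_lt.1 hc))
  have hN' : (0 : ℚ) < N := by exact_mod_cast hN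
  have h5 : (0 : ℤ) ≤ m := by
    have : (0 : ℚ) ≤ m := by rw [← h4]; positivity
    exact_mod_cast this
  obtain ⟨n, rfl⟩ := Int.eq_ofNat_of_zero_le h5
  refine ⟨n, ?_⟩
  rw [eq_div_iff hN'.ne', h4]
  simp

theorem resum (N : ℕ) (hN : 0 < N) (b : ℚ → ℂ) (hb : ∀ ν, b ν ≠ 0 → ∃ n : ℕ, ν = n / N)
    (f : ℍ → ℂ)
    (h : ∀ z : ℍ, HasSum (fun ν : ℚ => b ν * Complex.exp (2 * π * Complex.I * ν * z)) (f z)) :
    ExpN N (PowerSeries.mk fun n => b (n / N)) f := by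
  intro z
  have hN' : (N : ℚ) ≠ 0 := by exact_mod_cast hN.ne'
  have hinj : Function.Injective fun n : ℕ => (n : ℚ) / N := by
    intro m n hmn
    have := (div_left_inj' hN').1 hmn
    exact_mod_cast this
  have h1 := (hinj.hasSum_iff (f := fun ν : ℚ => b ν * Complex.exp (2 * π * Complex.I * ν * z))
    (fun ν hν => by
      have : b ν = 0 := by
        by_contra hc
        obtain ⟨n, hn⟩ := hb ν hc
        exact hν ⟨n, hn.symm⟩
      simp [this])).2 (h z)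
  have e : (fun n : ℕ => PowerSeries.coeff n (PowerSeries.mk fun n : ℕ => b (n / N)) * qN N z ^ n) =
      (fun ν : ℚ => b ν * Complex.exp (2 * π * Complex.I * ν * z)) ∘ fun n : ℕ => (n : ℚ) / N := by
    funext n
    simp only [PowerSeries.coeff_mk, Function.comp, qN]
    rw [← Complex.exp_nat_mul]
    congr 2
    push_cast
    ring
  rw [e]
  exact h1

theorem norm_qN (N : ℕ) (z : ℍ) : ‖qN N z‖ = Real.exp (-(2 * π * z.im / N)) := by
  unfold qN
  rw [Complex.norm_exp]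
  congr 1
  rw [Complex.div_natCast_re]
  simp [neg_div]

theorem bounded (N : ℕ) (a : ℂ⟦X⟧) (f : ℍ → ℂ) (h : ExpN N a f) : IsBoundedAtImInfty f := by
  have h0 := (h UpperHalfPlane.I).summable.norm
  rw [isBoundedAtImInfty_iff]
  refine ⟨∑' n, ‖PowerSeries.coeff n a * qN N UpperHalfPlane.I ^ n‖, 1, fun z hz => ?_⟩
  refine (h z).norm_le_of_bounded h0.hasSum fun n => ?_
  rw [norm_mul, norm_mul, norm_pow, norm_pow]
  refine mul_le_mul_of_nonneg_left (pow_le_pow_left₀ (norm_nonneg _) ?_ n) (norm_nonneg _)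
  rw [norm_qN, norm_qN]
  refine Real.exp_le_exp.2 (neg_le_neg (div_le_div_of_nonneg_right ?_ (Nat.cast_nonneg _)))
  refine mul_le_mul_of_nonneg_left ?_ (by positivity)
  simpa using hz

theorem expn {V : Type} [NormedAddCommGroup V] [InnerProductSpace ℂ V] (C : U.CS V)
    (ι φ : V →ₗ[ℂ] ℍ → ℂ) (N : ℕ) (w : V) (R : U.Realis C ι φ) (hN : 0 < N)
    (h : C.act (U.Tr N) w = w) :
    (∀ ν : ℚ, C.β ν w ≠ 0 → ∃ n : ℕ, ν = n / N) ∧
    ExpN N (PowerSeries.mk fun n => C.β (n / N) w) (ι w) ∧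
    ExpN N (PowerSeries.mk fun n => C.β (n / N) w / ((n / N : ℚ) : ℂ)) (φ w) :=
  ⟨supp C N w hN h, resum N hN (fun ν => C.β ν w) (supp C N w hN h) _ (R.sum w),
    resum N hN (fun ν => C.β ν w / (ν : ℂ))
      (fun ν hν => supp C N w hN h ν fun h0 => hν (by simp [h0])) _ (R.phi w)⟩

theorem tfix {V : Type} [NormedAddCommGroup V] [InnerProductSpace ℂ V] (C : U.CS V) (w : V) :
    ∃ L : ℕ, 0 < L ∧ C.act (U.Tr L) w = w := by
  obtain ⟨L, hL, h⟩ := C.smooth w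
  refine ⟨L, hL, ?_⟩
  have h1 := h (U.mkZ 1 L 0 1 (by ring)) (by rw [Gamma_mem]; simp)
  have e : U.ofZ (U.mkZ 1 L 0 1 (by ring)) = U.Tr L := by
    ext <;> simp [U.ofZ, U.Tr]
  rwa [e] at h1

end EXPx

theorem exp : S_EXP where
  mob := EXPx.mob
  sl := EXPx.sl
  exp := fun _ _ _ C ι φ N w R hN h => EXPx.expn C ι φ N w R hN h
  bdd := fun _ _ _ C ι φ w R => by
    obtain ⟨L, hL, h⟩ := EXPx.tfix C w
    obtain ⟨-, h1, h2⟩ := EXPx.expn C ι φ L w R hL h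
    exact ⟨EXPx.bounded _ _ _ h1, EXPx.bounded _ _ _ h2⟩

end Pool.Agent.MP_b2c033_nt.UG
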