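import Pool.Agent.MP_b2c033_nt.UG.Spec
import Pool.Agent.MP_b2c033_nt.H87.M2
import Pool.Agent.MP_b2c033_nt.H87.M3b
import Pool.Agent.MP_b2c033_nt.H87.M5
import Pool.Agent.MP_b2c033_nt.H87.M6b

/-! The Galois action on the expansions of a form of weight two. -/

namespace Pool.Agent.MP_b2c033_nt.UG

open Filter Polynomial CongruenceSubgroup
open UpperHalfPlane hiding I
open Pool.Agent.MP_b2c033_nt.H87
open scoped Real Manifold MatrixGroups Topology PowerSeries

noncomputable section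

namespace GALx

theorem e4_smul (γ : SL(2, ℤ)) (z : ℍ) : ModularForm.E₄ (γ • z) =
    ((γ 1 0 : ℂ) * z + (γ 1 1 : ℂ)) ^ 4 * ModularForm.E₄ z := by
  have h := SlashInvariantForm.slash_action_eqn' (Γ := 𝒮ℒ) ModularForm.E₄
    (γ := Matrix.SpecialLinearGroup.mapGL ℝ γ) (MonoidHom.mem_range.2 ⟨γ, rfl⟩) z
  refine Eq.trans h ?_
  simp [zpow_ofNat]

theorem jj_smul (γ : SL(2, ℤ)) (z : ℍ) : jj (γ • z) = jj z := by
  have h1 := M6bx.den_ne γ z
  have h2 := ModularForm.discriminant_ne_zero z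
  simp only [jj, e4_smul, M6bx.disc_smul]
  field_simp

theorem tt_smul (N : ℕ) (γ : SL(2, ℤ)) (z : ℍ) : tt N (γ • z) =
    kap * Eis N (γ 1 1 : ZMod N) (-(γ 1 0 : ZMod N)) z / ModularForm.discriminant z := by
  have h1 := M6bx.den_ne γ z
  have h2 := ModularForm.discriminant_ne_zero z
  simp only [tt, m3t N 1 0 γ z, M6bx.disc_smul, mul_one, mul_zero, sub_zero, zero_sub]
  field_simp

theorem hol_disc : MDifferentiable 𝓘(ℂ) 𝓘(ℂ) ModularForm.discriminant :=
  ModularFormClass.holo CuspForm.discriminant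

theorem e4_ne : (ModularForm.E₄ : ℍ → ℂ) ≠ 0 := fun h => by
  have := ModularForm.E₄_qExpansion_coeff_one
  rw [h, qExpansion_zero] at this
  norm_num at this

theorem e6_ne : (ModularForm.E₆ : ℍ → ℂ) ≠ 0 := fun h => by
  have := ModularForm.E₆_qExpansion_coeff_one
  rw [h, qExpansion_zero] at this
  norm_num at this

variable {K : Type} [Field K] {i i' : K →+* ℂ} {N : ℕ} {φ φ' ψ ψ' : ℍ → ℂ}

theorem pcg (h : Pair i i' N φ φ') (h1 : ∀ z, φ z = ψ z) (h2 : ∀ z, φ' z = ψ' z) :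
    Pair i i' N ψ ψ' := by
  rw [← funext h1, ← funext h2]
  exact h

theorem p4 (hp : S_PAIR) (hN : 0 < N) :
    Pair i i' N (fun z => ModularForm.E₄ z) fun z => ModularForm.E₄ z := by
  obtain ⟨a, ha⟩ := m5.1
  exact hp.int K i i' N a _ hN ha

theorem p6 (hp : S_PAIR) (hN : 0 < N) :
    Pair i i' N (fun z => ModularForm.E₆ z) fun z => ModularForm.E₆ z := by
  obtain ⟨a, ha⟩ := m5.2
  exact hp.int K i i' N a _ hN ha

theorem ppow (hp : S_PAIR) (hN : 0 < N) (h : Pair i i' N φ φ') (n : ℕ) :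
    Pair i i' N (fun z => φ z ^ n) fun z => φ' z ^ n := by
  induction n with
  | zero => exact pcg (hp.const K i i' N 1) (fun z => by simp) fun z => by simp
  | succ n ih =>
    exact pcg (hp.mul K i i' N _ _ _ _ hN ih h) (fun z => (pow_succ _ _).symm)
      fun z => (pow_succ _ _).symm

theorem pdisc (hp : S_PAIR) (hN : 0 < N) :
    Pair i i' N ModularForm.discriminant ModularForm.discriminant := by
  have h := hp.add K i i' N _ _ _ _ hN
    (hp.mul K i i' N _ _ _ _ hN (hp.const K i i' N (1 / 1728)) (ppow hp hN (p4 hp hN) 3))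
    (hp.mul K i i' N _ _ _ _ hN (hp.const K i i' N (-1 / 1728)) (ppow hp hN (p6 hp hN) 2))
  refine pcg h (fun z => ?_) fun z => ?_ <;>
  · rw [ModularForm.discriminant_eq_E₄_cube_sub_E₆_sq]
    push_cast
    ring

/-- a pair after multiplication by a power of the discriminant -/
def PD (i i' : K →+* ℂ) (N : ℕ) (φ φ' : ℍ → ℂ) : Prop :=
  MDifferentiable 𝓘(ℂ) 𝓘(ℂ) φ ∧ ∃ D : ℕ,
    Pair i i' N (fun z => φ z * ModularForm.discriminant z ^ D)
      fun z => φ' z * ModularForm.discriminant z ^ D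

theorem PD.add (hp : S_PAIR) (hN : 0 < N) (h : PD i i' N φ φ') (h' : PD i i' N ψ ψ') :
    PD i i' N (fun z => φ z + ψ z) fun z => φ' z + ψ' z := by
  obtain ⟨h1, D, hD⟩ := h
  obtain ⟨h2, E, hE⟩ := h'
  refine ⟨h1.add h2, D + E, pcg (hp.add K i i' N _ _ _ _ hN
    (hp.mul K i i' N _ _ _ _ hN hD (ppow hp hN (pdisc hp hN) E))
    (hp.mul K i i' N _ _ _ _ hN hE (ppow hp hN (pdisc hp hN) D))) (fun z => ?_) fun z => ?_⟩ <;>
  ring

theorem PD.mul (hp : S_PAIR) (hN : 0 < N) (h : PD i i' N φ φ') (h' : PD i i' N ψ ψ') :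
    PD i i' N (fun z => φ z * ψ z) fun z => φ' z * ψ' z := by
  obtain ⟨h1, D, hD⟩ := h
  obtain ⟨h2, E, hE⟩ := h'
  refine ⟨h1.mul h2, D + E, pcg (hp.mul K i i' N _ _ _ _ hN hD hE) (fun z => ?_) fun z => ?_⟩ <;>
  ring

theorem PD.const (hp : S_PAIR) (c : ℚ) : PD i i' N (fun _ => (c : ℂ)) fun _ => (c : ℂ) :=
  ⟨mdifferentiable_const, 0, pcg (hp.const K i i' N c) (fun z => by simp) fun z => by simp⟩

theorem PD.cg (h : PD i i' N φ φ') (h1 : ∀ z, φ z = ψ z) (h2 : ∀ z, φ' z = ψ' z) :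
    PD i i' N ψ ψ' := by
  rw [← funext h1, ← funext h2]
  exact h

theorem PD.pow (hp : S_PAIR) (hN : 0 < N) (h : PD i i' N φ φ') (n : ℕ) :
    PD i i' N (fun z => φ z ^ n) fun z => φ' z ^ n := by
  induction n with
  | zero => exact (PD.const hp 1).cg (fun z => by simp) fun z => by simp
  | succ n ih =>
    exact (ih.mul hp hN h).cg (fun z => (pow_succ _ _).symm) fun z => (pow_succ _ _).symm

theorem PD.aev (hp : S_PAIR) (hN : 0 < N) (h : PD i i' N φ φ') (P : ℚ[X]) :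
    PD i i' N (fun z => aeval (φ z) P) fun z => aeval (φ' z) P := by
  induction P using Polynomial.induction_on' with
  | add p q h1 h2 => exact (h1.add hp hN h2).cg (fun z => by simp) fun z => by simp
  | monomial n c =>
    exact ((PD.const hp c).mul hp hN (h.pow hp hN n)).cg (fun z => by simp [aeval_monomial])
      fun z => by simp [aeval_monomial]

theorem PD.sum (hp : S_PAIR) (hN : 0 < N) {F F' : ℕ → ℍ → ℂ} (h : ∀ j, PD i i' N (F j) (F' j))
    (n : ℕ) : PD i i' N (fun z => ∑ j ∈ Finset.range n, F j z)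
      fun z => ∑ j ∈ Finset.range n, F' j z := by
  induction n with
  | zero => exact (PD.const hp 0).cg (fun z => by simp) fun z => by simp
  | succ n ih =>
    exact (ih.add hp hN (h n)).cg (fun z => (Finset.sum_range_succ _ _).symm)
      fun z => (Finset.sum_range_succ _ _).symm

theorem PD.quo (hφ : MDifferentiable 𝓘(ℂ) 𝓘(ℂ) φ) (h : Pair i i' N φ φ') :
    PD i i' N (fun z => φ z / ModularForm.discriminant z)
      fun z => φ' z / ModularForm.discriminant z := by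
  refine ⟨hφ.div hol_disc ModularForm.discriminant_ne_zero, 1,
    pcg h (fun z => ?_) fun z => ?_⟩ <;>
  rw [pow_one, div_mul_cancel₀ _ (ModularForm.discriminant_ne_zero z)]

end GALx

open GALx in
theorem galb : S_GALb := by
  intro hr he hp hw hc N f b d γ γ' β β' hN hf hi hb hs hd ht hβ hβ' n
  have h0 : 0 < N := by omega
  obtain ⟨K, _, i, i', ζ, z1, z2, hK⟩ := hc.field N d h0 hd
  obtain ⟨w1, ⟨F, w2⟩, w3⟩ := hw f b hf hb hs
  obtain ⟨m, A, B, hAB, z₀, hB⟩ := hr N (wz f) F hN w1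
    (fun δ hδ z => by rw [w3, hi δ hδ]) w2
  have hj : PD i i' N jj jj :=
    PD.quo ((ModularFormClass.holo ModularForm.E₄).pow 3) (ppow hp h0 (p4 hp h0) 3)
  have e1 : ((γ' 1 1 : ℤ) : ZMod N) = (γ 1 1 : ℤ) := (ZMod.intCast_eq_intCast_iff _ _ _).2 ht.2.2.2
  have e2 : -((γ' 1 0 : ℤ) : ZMod N) * d = -((γ 1 0 : ℤ) : ZMod N) := by
    have := (ZMod.intCast_eq_intCast_iff _ _ _).2 ht.2.2.1
    push_cast at this
    rw [neg_mul, this]
  have htt : PD i i' N (fun z => tt N (γ • z)) fun z => tt N (γ' • z) :=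
    (PD.quo (mdifferentiable_const.mul (m3b N _ _).1)
      (he K i i' N d ζ (γ 1 1 : ℤ) _ _ (by omega) hd z1 z2 e2)).cg
      (fun z => (tt_smul N γ z).symm) fun z => by rw [tt_smul, e1]
  have hS : ∀ A : ℕ → ℚ[X], PD i i' N
      (fun z => ∑ j ∈ Finset.range m, aeval (jj z) (A j) * tt N (γ • z) ^ j)
      fun z => ∑ j ∈ Finset.range m, aeval (jj z) (A j) * tt N (γ' • z) ^ j := fun A =>
    PD.sum hp h0 (fun j => (hj.aev hp h0 (A j)).mul hp h0 (htt.pow hp h0 j)) m
  obtain ⟨-, D, hD⟩ := hS A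
  obtain ⟨hh, E, hE⟩ := hS B
  have key : ∀ (δ : SL(2, ℤ)) (z : ℍ), sl2 f δ z * (ModularForm.E₄ z * ModularForm.E₆ z *
      ((∑ j ∈ Finset.range m, aeval (jj z) (B j) * tt N (δ • z) ^ j) *
        ModularForm.discriminant z ^ E * ModularForm.discriminant z ^ D)) =
      (∑ j ∈ Finset.range m, aeval (jj z) (A j) * tt N (δ • z) ^ j) *
        ModularForm.discriminant z ^ D * ModularForm.discriminant z ^ (E + 1) := fun δ z => by
    have h := hAB (δ • z)
    rw [w3, jj_smul, wz] at h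
    have h2 := ModularForm.discriminant_ne_zero z
    rw [← h]
    field_simp
    ring
  have hne : ∃ z, ModularForm.E₄ z * ModularForm.E₆ z *
      ((∑ j ∈ Finset.range m, aeval (jj z) (B j) * tt N (γ • z) ^ j) *
        ModularForm.discriminant z ^ E * ModularForm.discriminant z ^ D) ≠ 0 := by
    by_contra hcon
    have h1 : ((ModularForm.E₄ : ℍ → ℂ) * (ModularForm.E₆ : ℍ → ℂ)) *
        (fun z => ∑ j ∈ Finset.range m, aeval (jj z) (B j) * tt N (γ • z) ^ j) = 0 := by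
      funext z
      have h2 := not_not.1 (not_exists.1 hcon z)
      have h3 := ModularForm.discriminant_ne_zero z
      rw [mul_assoc (∑ j ∈ Finset.range m, aeval (jj z) (B j) * tt N (γ • z) ^ j),
        ← mul_assoc] at h2
      exact (mul_eq_zero.1 h2).resolve_right (mul_ne_zero (pow_ne_zero _ h3) (pow_ne_zero _ h3))
    have h4 := ModularFormClass.holo ModularForm.E₄
    have h6 := ModularFormClass.holo ModularForm.E₆
    rcases (mul_eq_zero_iff (h4.mul h6) hh).1 h1 with h | h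
    · exact ((mul_eq_zero_iff h4 h6).1 h).elim e4_ne e6_ne
    · have := congrFun h (γ⁻¹ • z₀)
      rw [smul_inv_smul, jj_smul] at this
      exact hB this
  obtain ⟨c, c1, c2⟩ := hp.div K i i' N _ _ _ _ _ _ β β' h0 hβ hβ'
    (hp.mul K i i' N _ _ _ _ h0 hD (ppow hp h0 (pdisc hp h0) (E + 1)))
    (hp.mul K i i' N _ _ _ _ h0 (hp.mul K i i' N _ _ _ _ h0 (p4 hp h0) (p6 hp h0))
      (hp.mul K i i' N _ _ _ _ h0 hE (ppow hp h0 (pdisc hp h0) D)))
    hne (key γ) (key γ')
  obtain ⟨P, P1, P2⟩ := hK (PowerSeries.coeff n c)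
  exact ⟨P, by rw [← c1, PowerSeries.coeff_map, P1], by rw [← c2, PowerSeries.coeff_map, P2]⟩

end

end Pool.Agent.MP_b2c033_nt.UG
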