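import Pool.Agent.MP_b2c033_nt.UG.Spec

/-! The Galois action on expansions, in the abstract space of cusp forms. -/

namespace Pool.Agent.MP_b2c033_nt.UG

open Polynomial CongruenceSubgroup
open UpperHalfPlane hiding I
open Pool.Agent.MP_b2c033_nt.H87
open scoped MatrixGroups PowerSeries

theorem galc : S_GALCa := by
  intro hE hG V _ _ C ι φ R v N d γ γ' ν hN hF hR hd hT
  have N0 : 0 < N := by omega
  have sl : ∀ δ : U.SZ, ι (C.act (U.ofZ δ) v) = sl2 (ι v) δ := fun δ =>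
    (R.act _ v (by simp)).trans (hE.sl δ _)
  have tr : ∀ k : ℕ, U.ofZ (U.mkZ 1 k 0 1 (by simp)) = U.Tr k := fun k => by
    ext <;> simp [U.ofZ, U.Tr]
  have fx : ∀ δ : U.SZ, C.act (U.Tr N) (C.act (U.ofZ δ) v) = C.act (U.ofZ δ) v := fun δ => by
    have m := Gamma_mem.1 ((Gamma_normal N).conj_mem (U.mkZ 1 N 0 1 (by simp))
      (Gamma_mem.2 (by simp)) δ)
    rw [← C.act_mul _ _ _ (by simp) (by simp), ← tr, ← U.ofZ_mul,
      ← inv_mul_cancel_right (δ * _) δ, U.ofZ_mul, C.act_mul _ _ _ (by simp) (by simp),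
      hF _ ((Gamma1_mem _ _).2 ⟨m.1, m.2.2.2, m.2.2.1⟩)]
  have x := hE.exp V C ι φ N _ R N0 (fx γ)
  have x' := hE.exp V C ι φ N _ R N0 (fx γ')
  by_cases hν : ∃ n : ℕ, ν = n / N
  swap
  · refine ⟨0, ?_, ?_⟩ <;> rw [map_zero]
    · exact not_not.1 fun q => hν (x.1 ν q)
    · exact not_not.1 fun q => hν (x'.1 ν q)
  obtain ⟨n, rfl⟩ := hν
  choose r hr using hR
  have y := (hE.exp V C ι φ 1 v R one_pos
    (tr 1 ▸ hF _ ((Gamma1_mem _ _).2 (by simp)))).2.1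
  rw [sl] at x x'
  simpa using hG N (ι v) (PowerSeries.mk fun n => r n) d γ γ' _ _ hN (R.cusp v).hol
    (fun δ hδ => by rw [← sl, hF δ hδ]) (fun δ => sl δ ▸ (hE.bdd V C ι φ _ R).1)
    (fun z => by simpa [qN, nome, hr] using y z) hd hT x.2.1 x'.2.1 n

end Pool.Agent.MP_b2c033_nt.UG
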