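import Pool.Agent.MP_b2c033_nt.UG.Spec
import Pool.Agent.MP_b2c033_nt.H87.T1
import Pool.Agent.MP_b2c033_nt.H87.T2

/-! Algebra of pairs of expansions. -/

namespace Pool.Agent.MP_b2c033_nt.UG

open Filter Metric
open UpperHalfPlane hiding I
open Pool.Agent.MP_b2c033_nt.H87
open scoped Real PowerSeries

namespace PAIRx

variable {N : ℕ} {a b : ℂ⟦X⟧} {φ ψ : ℍ → ℂ}

theorem pow (hN : 0 < N) (z : ℍ) : qN N z ^ N = nome z := by
  have : (N : ℂ) ≠ 0 := by exact_mod_cast hN.ne'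
  rw [qN, nome, ← Complex.exp_nat_mul, mul_div_cancel₀ _ this]

theorem mem (hN : 0 < N) (z : ℍ) : qN N z ∈ ball (0 : ℂ) 1 := by
  have := T2x.norm_nome z
  rw [← pow hN, norm_pow] at this
  exact mem_ball_zero_iff.2 (lt_of_pow_lt_pow_left₀ N zero_le_one (by rwa [one_pow]))

theorem ex (hN : 0 < N) {q : ℂ} (hq : q ∈ ball (0 : ℂ) 1) (h0 : q ≠ 0) : ∃ z, qN N z = q := by
  obtain ⟨z, rfl⟩ := T2x.exists_nome h0 (mem_ball_zero_iff.1 hq)
  have : (N : ℂ) ≠ 0 := by exact_mod_cast hN.ne'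
  refine ⟨⟨N * z, by simpa using mul_pos (Nat.cast_pos.2 hN) z.im_pos⟩, ?_⟩
  rw [qN, nome]
  congr 1
  field_simp

theorem conv (hN : 0 < N) (h : ExpN N a φ) : ∃ α, Conv a α ∧ ∀ z, α (qN N z) = φ z := by
  refine ⟨fun q => ∑' n : ℕ, PowerSeries.coeff n a * q ^ n, fun q hq => Summable.hasSum ?_,
    fun z => (h z).tsum_eq⟩
  rcases eq_or_ne q 0 with rfl | h0
  · exact (hasSum_single 0 fun n hn => by simp [hn]).summable
  · obtain ⟨z, rfl⟩ := ex hN hq h0
    exact (h z).summable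

theorem add (h : ExpN N a φ) (h' : ExpN N b ψ) : ExpN N (a + b) fun z => φ z + ψ z := fun z => by
  simpa only [map_add, add_mul] using (h z).add (h' z)

theorem mul (hN : 0 < N) (h : ExpN N a φ) (h' : ExpN N b ψ) :
    ExpN N (a * b) fun z => φ z * ψ z := fun z => by
  obtain ⟨α, a1, a2⟩ := conv hN h
  obtain ⟨β, b1, b2⟩ := conv hN h'
  simpa only [a2, b2] using t1.mul _ _ _ _ a1 b1 _ (mem hN z)

theorem uniq (hN : 0 < N) (h : ExpN N a φ) (h' : ExpN N b ψ) (e : ∀ z, φ z = ψ z) : a = b := by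
  have k : ExpN N (a - b) fun z => φ z - ψ z := fun z => by
    simpa only [map_sub, sub_mul] using (h z).sub (h' z)
  obtain ⟨α, a1, a2⟩ := conv hN k
  refine sub_eq_zero.1 (t1.inj _ _ a1 fun q hq h0 => ?_)
  obtain ⟨z, rfl⟩ := ex hN hq h0
  rw [a2, e, sub_self]

theorem const (c : ℂ) : ExpN N (PowerSeries.C c) fun _ => c := fun z => by
  simpa using hasSum_single (f := fun n : ℕ => PowerSeries.coeff n (PowerSeries.C c) * qN N z ^ n)
    0 fun n hn => by simp [PowerSeries.coeff_C, hn]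

theorem int {K : Type} [Field K] (i : K →+* ℂ) (hN : 0 < N) {a : ℤ⟦X⟧} (h : ZExp a φ) :
    ExpN N (PowerSeries.map i (PowerSeries.expand N hN.ne'
      (PowerSeries.map (Int.castRingHom K) a))) φ := fun z => by
  refine ((mul_right_injective₀ hN.ne').hasSum_iff fun n hn => ?_).1 ?_
  · rw [PowerSeries.coeff_map, PowerSeries.coeff_expand_of_not_dvd _ _ _
      fun ⟨k, e⟩ => hn ⟨k, e.symm⟩, map_zero, zero_mul]
  · simpa [Function.comp_def, PowerSeries.coeff_expand_mul, pow_mul, pow hN] using h z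

end PAIRx

open PAIRx

theorem pair : S_PAIR := by
  refine ⟨fun K _ i i' N φ φ' ψ ψ' _ ⟨a, a1, a2⟩ ⟨b, b1, b2⟩ => ⟨a + b, ?_, ?_⟩,
    fun K _ i i' N φ φ' ψ ψ' hN ⟨a, a1, a2⟩ ⟨b, b1, b2⟩ => ⟨a * b, ?_, ?_⟩,
    fun K _ i i' N c => ?_, fun K _ i i' N a φ hN h => ⟨_, int i hN h, int i' hN h⟩,
    fun K _ i i' N f f' φ φ' ψ ψ' b b' hN hb hb' ⟨a, a1, a2⟩ ⟨e, e1, e2⟩ ⟨z, hz⟩ h h' => ?_⟩
  · exact map_add (PowerSeries.map i) a b ▸ add a1 b1
  · exact map_add (PowerSeries.map i') a b ▸ add a2 b2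
  · exact map_mul (PowerSeries.map i) a b ▸ mul hN a1 b1
  · exact map_mul (PowerSeries.map i') a b ▸ mul hN a2 b2
  · have : CharZero K := i.charZero
    refine ⟨PowerSeries.C (c : K), ?_, ?_⟩ <;> rw [PowerSeries.map_C, map_ratCast] <;>
      exact const _
  have q := uniq hN (mul hN hb e1) a1 h
  have q' := uniq hN (mul hN hb' e2) a2 h'
  have e0 : e ≠ 0 := fun k => hz (by simpa [k] using ((e1 z).tsum_eq).symm)
  have m0 : ∀ j : K →+* ℂ, PowerSeries.map j e ≠ 0 := fun j k =>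
    e0 (PowerSeries.map_injective j j.injective (k.trans (map_zero _).symm))
  have d1 : (PowerSeries.X : K⟦X⟧) ^ e.order.toNat ∣ a := by
    have : (PowerSeries.X : ℂ⟦X⟧) ^ e.order.toNat ∣ PowerSeries.map i a := by
      rw [← q]
      refine Dvd.dvd.mul_left ?_ _
      simpa using map_dvd (PowerSeries.map i)
        (Dvd.intro _ (PowerSeries.X_pow_order_mul_divXPowOrder (f := e)))
    rw [PowerSeries.X_pow_dvd_iff] at this ⊢
    exact fun m hm => i.injective (by simpa using this m hm)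
  obtain ⟨c, rfl⟩ : e ∣ a := by
    rw [← PowerSeries.X_pow_order_mul_divXPowOrder (f := e)]
    exact (PowerSeries.isUnit_divided_by_X_pow_order e0).mul_right_dvd.2 d1
  rw [map_mul, mul_comm] at q q'
  exact ⟨c, (mul_left_cancel₀ (m0 i) q).symm, (mul_left_cancel₀ (m0 i') q').symm⟩

end Pool.Agent.MP_b2c033_nt.UG
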