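import Pool.Agent.MP_b2c033_nt.UG.Spec
import Pool.Agent.MP_b2c033_nt.H87.T1
import Pool.Agent.MP_b2c033_nt.H87.M1
import Pool.Agent.MP_b2c033_nt.H87.M2
import Pool.Agent.MP_b2c033_nt.H87.M3a
import Pool.Agent.MP_b2c033_nt.H87.M3b
import Pool.Agent.MP_b2c033_nt.H87.M3c
import Pool.Agent.MP_b2c033_nt.H87.M4b
import Pool.Agent.MP_b2c033_nt.H87.M5
import Pool.Agent.MP_b2c033_nt.H87.M6b

/-! A relation with rational coefficients in the function field of level `N`. -/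

namespace Pool.Agent.MP_b2c033_nt.UG

open Filter Asymptotics Polynomial
open UpperHalfPlane hiding I
open Pool.Agent.MP_b2c033_nt.H87
open scoped Real Manifold MatrixGroups Topology PowerSeries

noncomputable section

namespace RATx

theorem K_ne : ((-2 * π * Complex.I) ^ 12 / (Nat.factorial 11 : ℕ) : ℂ) ≠ 0 := by
  refine div_ne_zero (pow_ne_zero _ ?_) (by exact_mod_cast Nat.factorial_ne_zero 11)
  simp [Real.pi_ne_zero]

theorem kap_ne : kap ≠ 0 := inv_ne_zero K_ne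

end RATx

open M3ax in
theorem e10 : S_E10 := by
  intro M hM
  have hK := RATx.K_ne
  refine ⟨PowerSeries.mk fun n =>
    ∑ x ∈ n.divisorsAntidiagonal, (wt M x.1 + wt M (-x.1)) * (x.2 : ℤ) ^ 11, fun z => ?_⟩
  have hq : ‖nome z‖ < 1 := norm_exp_two_pi_I_lt_one z
  have h1 := lambert (fun c : ℕ => wt M c + wt M (-c)) (fun c => wt_le hM c) hq
  simp only [PowerSeries.coeff_mk]
  obtain ⟨hs, he⟩ := eis_eq M z
  have hs1 : Summable fun c : ℕ+ => (wt M c : ℂ) * row z c :=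
    hs.comp_injective (i := fun c : ℕ+ => ((c : ℕ) : ℤ))
      fun a b h => PNat.eq (Int.ofNat_inj.1 h)
  have hs2 : Summable fun c : ℕ+ => (wt M (-c) : ℂ) * row z (-c) :=
    hs.comp_injective (i := fun c : ℕ+ => -((c : ℕ) : ℤ))
      fun a b h => PNat.eq (by exact_mod_cast neg_injective h)
  have h2 : kap * Eis M 1 0 z = ∑' c : ℕ+, ((wt M c + wt M (-c) : ℤ) : ℂ) *
      ∑' e : ℕ+, ((e : ℕ) : ℂ) ^ 11 * nome z ^ (c * e : ℕ) := by
    rw [he, tsum_int_eq_zero_add_tsum_pnat hs, wt_zero hM, Int.cast_zero, zero_mul, zero_add,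
      ← hs1.tsum_add hs2, ← tsum_mul_left]
    refine tsum_congr fun c => ?_
    rw [row_neg, row_pos]
    unfold kap
    generalize ((-2 * π * Complex.I) ^ 12 / (Nat.factorial 11 : ℕ) : ℂ) = K at hK ⊢
    push_cast
    field_simp
  rw [h2]
  exact h1

namespace RATx

open M6bx M4bx

theorem cplx (N : ℕ) (u : ℍ → ℂ) (h5 : 5 ≤ N) (hu : Mer u)
    (hi : ∀ γ ∈ CongruenceSubgroup.Gamma1 N, ∀ z, u (γ • z) = u z) :
    ∃ (n : ℕ) (A B : ℕ → ℂ[X]),
      (∀ z, u z * ∑ i ∈ Finset.range n, (B i).eval (jj z) * tt N z ^ i =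
        ∑ i ∈ Finset.range n, (A i).eval (jj z) * tt N z ^ i) ∧
      ∃ z, ∑ i ∈ Finset.range n, (B i).eval (jj z) * tt N z ^ i ≠ 0 := by
  have : NeZero N := ⟨by omega⟩
  have hκ := kap_ne
  have htr : ∀ (γ : SL(2, ℤ)) (z : ℍ), tt N (γ • z) =
      kap * Eis N (γ 1 1 : ZMod N) (-(γ 1 0 : ZMod N)) z /
        ModularForm.discriminant z := fun γ z => by
    have h1 := den_ne γ z
    have h2 := ModularForm.discriminant_ne_zero z
    simp only [tt, m3t N 1 0 γ z, disc_smul, mul_one, mul_zero, sub_zero, zero_sub]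
    field_simp
  have hmer : Mer (tt N) := by
    refine ⟨?_, fun γ => ⟨2 * π, ?_⟩⟩
    · exact (mdifferentiable_const.mul (m3b N 1 0).1).div
        (ModularFormClass.holo CuspForm.discriminant) ModularForm.discriminant_ne_zero
    · simp only [htr]
      have h1 := (m3b N (γ 1 1 : ZMod N) (-(γ 1 0 : ZMod N))).2
      have h2 := ModularForm.exp_isBigO_discriminant.inv_rev
        (Eventually.of_forall fun z h => absurd h (Real.exp_pos _).ne')
      have h3 := (h1.const_mul_left kap).mul h2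
      refine h3.congr (fun z => by rw [div_eq_mul_inv]) fun z => ?_
      rw [← Real.exp_neg]; simp
  have hinv : ∀ γ ∈ CongruenceSubgroup.Gamma1 N, ∀ z, tt N (γ • z) = tt N z := fun γ hγ z => by
    rw [CongruenceSubgroup.Gamma1_mem] at hγ
    rw [htr, hγ.2.1, hγ.2.2, neg_zero, tt]
  have hstab : ∀ γ : SL(2, ℤ), (∀ z, tt N (γ • z) = tt N z) → ∀ z, u (γ • z) = u z := by
    intro γ hγ z
    have h1 : ∀ z, Eis N (γ 1 1 : ZMod N) (-(γ 1 0 : ZMod N)) z = Eis N 1 0 z := fun z => by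
      have h2 := hγ z
      rw [htr, tt] at h2
      exact mul_left_cancel₀ hκ ((div_left_inj' (ModularForm.discriminant_ne_zero z)).1 h2)
    rcases m3d m3t m3c N γ h5 h1 with h | h
    · exact hi γ h z
    · have := hi (-γ) h z
      rwa [ModularGroup.SL_neg_smul] at this
  exact m2 m1 (tt N) u (CongruenceSubgroup.Gamma1 N) inferInstance hmer hu hinv hstab

theorem ratkey {ι : Type} [DecidableEq ι] (s : Finset ι) (φ : ι → ℍ → ℂ) (k : ι → L)
    (c : ι → ℚ) (hR : ∀ i ∈ s, Rep (φ i) (k i)) :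
    (∀ z, ∑ i ∈ s, (c i : ℂ) * φ i z = 0) ↔ ∑ i ∈ s, (c i : L) * k i = 0 := by
  have := charZeroL
  rw [key t1 s φ k (fun i => (c i : ℂ)) hR]
  have e : ∀ p : ℂ →ₗ[ℚ] ℚ, ∑ i ∈ s, ((p (c i : ℂ) : ℚ) : L) * k i
      = ((p 1 : ℚ) : L) * ∑ i ∈ s, (c i : L) * k i := fun p => by
    rw [Finset.mul_sum]
    refine Finset.sum_congr rfl fun i _ => ?_
    have h1 : (c i : ℂ) = c i • (1 : ℂ) := by rw [Rat.smul_one_eq_cast]
    rw [h1, map_smul, smul_eq_mul, Rat.cast_mul]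
    ring
  simp only [e]
  refine ⟨fun H => ?_, fun H p => by rw [H, mul_zero]⟩
  by_contra h0
  refine (one_ne_zero : (1 : ℂ) ≠ 0) ((Module.forall_dual_apply_eq_zero_iff ℚ _).1 fun p => ?_)
  have h1 := (mul_eq_zero.1 (H p)).resolve_right h0
  exact_mod_cast h1

theorem desc {ι : Type} [DecidableEq ι] (s : Finset ι) (φ : ι → ℍ → ℂ) (k : ι → L)
    (c : ι → ℂ) (hR : ∀ i ∈ s, Rep (φ i) (k i)) :
    (∀ z, ∑ i ∈ s, c i * φ i z = 0) ↔
      ∀ p : ℂ →ₗ[ℚ] ℚ, ∀ z, ∑ i ∈ s, ((p (c i) : ℚ) : ℂ) * φ i z = 0 := by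
  rw [key t1 s φ k c hR]
  exact forall_congr' fun p => (ratkey s φ k (fun i => p (c i)) hR).symm

theorem expandQ (n D : ℕ) (c : ℕ × ℕ → ℚ) (x y : ℂ) :
    ∑ i ∈ Finset.range n, aeval x (∑ a ∈ Finset.range D, monomial a (c (i, a))) * y ^ i =
      ∑ p ∈ Finset.range n ×ˢ Finset.range D, (c p : ℂ) * (x ^ p.2 * y ^ p.1) := by
  rw [Finset.sum_product]
  refine Finset.sum_congr rfl fun i _ => ?_
  rw [map_sum, Finset.sum_mul]
  refine Finset.sum_congr rfl fun a _ => ?_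
  rw [aeval_monomial, eq_ratCast]
  ring

end RATx

open RATx M4bx in
theorem rat : S_RAT := by
  intro N u F h5 hu hi hF
  obtain ⟨n, A, B, hAB, z₀, hz₀⟩ := cplx N u h5 hu hi
  obtain ⟨a, ha⟩ := e10 N h5
  obtain ⟨⟨J, hj, -⟩, hT⟩ := m5b t1 m5
  obtain ⟨T, ht, -⟩ := hT a _ ha
  have ht' : Rep (tt N) T := ht
  obtain ⟨D, hD⟩ : ∃ D, ∀ i < n, (A i).natDegree < D ∧ (B i).natDegree < D := by
    refine ⟨∑ i ∈ Finset.range n, ((A i).natDegree + (B i).natDegree) + 1, fun i hi => ?_⟩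
    have := Finset.single_le_sum (f := fun i => (A i).natDegree + (B i).natDegree)
      (fun _ _ => Nat.zero_le _) (Finset.mem_range.2 hi)
    omega
  set s := Finset.range n ×ˢ Finset.range D with hs
  have hm : ∀ p : ℕ × ℕ, Rep (fun z => jj z ^ p.2 * tt N z ^ p.1) (J ^ p.2 * T ^ p.1) := fun p =>
    rep_mul t1 (rep_pow t1 hj _) (rep_pow t1 ht' _)
  have k1 := desc s (fun p z => jj z ^ p.2 * tt N z ^ p.1) (fun p => J ^ p.2 * T ^ p.1)
    (fun p => (B p.1).coeff p.2) fun p _ => hm p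
  have k2 := (desc (s.disjSum s)
    (Sum.elim (fun p z => u z * (jj z ^ p.2 * tt N z ^ p.1)) fun p z => jj z ^ p.2 * tt N z ^ p.1)
    (Sum.elim (fun p => F * (J ^ p.2 * T ^ p.1)) fun p => J ^ p.2 * T ^ p.1)
    (Sum.elim (fun p => (B p.1).coeff p.2) fun p => -(A p.1).coeff p.2)
    (by rintro (p | p) _; exacts [rep_mul t1 hF (hm p), hm p])).1 fun z => by
      have := hAB z
      rw [expand n D A (fun i hi => (hD i hi).1), expand n D B (fun i hi => (hD i hi).2),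
        Finset.mul_sum] at this
      simp only [Finset.sum_disjSum, Sum.elim_inl, Sum.elim_inr, neg_mul, Finset.sum_neg_distrib]
      rw [← this, add_neg_eq_zero]
      exact Finset.sum_congr rfl fun p _ => by ring
  have k3 : ¬ ∀ q : ℂ →ₗ[ℚ] ℚ, ∀ z,
      ∑ p ∈ s, ((q ((B p.1).coeff p.2) : ℚ) : ℂ) * (jj z ^ p.2 * tt N z ^ p.1) = 0 := fun H =>
    hz₀ (by rw [expand n D B (fun i hi => (hD i hi).2)]; exact k1.2 H z₀)
  push Not at k3
  obtain ⟨q, z₁, hq⟩ := k3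
  refine ⟨n, fun i => ∑ a ∈ Finset.range D, monomial a (q ((A i).coeff a)),
    fun i => ∑ a ∈ Finset.range D, monomial a (q ((B i).coeff a)), fun z => ?_, z₁, ?_⟩
  · have k4 := k2 q z
    simp only [Finset.sum_disjSum, Sum.elim_inl, Sum.elim_inr, map_neg, Rat.cast_neg, neg_mul,
      Finset.sum_neg_distrib] at k4
    rw [expandQ n D (fun p => q ((B p.1).coeff p.2)), expandQ n D (fun p => q ((A p.1).coeff p.2)),
      ← hs, ← add_neg_eq_zero, ← k4, Finset.mul_sum]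
    refine congrArg₂ (· + ·) (Finset.sum_congr rfl fun p _ => by ring) rfl
  · rw [expandQ n D (fun p => q ((B p.1).coeff p.2))]
    exact hq

end

end Pool.Agent.MP_b2c033_nt.UG
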