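import Pool.Agent.MP_b2c033_nt.UG.Spec
import Pool.Agent.MP_b2c033_nt.H87.T1
import Pool.Agent.MP_b2c033_nt.H87.M5
import Pool.Agent.MP_b2c033_nt.H87.M6b

/-! The weight zero function attached to a form of weight two. -/

namespace Pool.Agent.MP_b2c033_nt.UG

open Filter Asymptotics
open UpperHalfPlane hiding I
open Pool.Agent.MP_b2c033_nt.H87
open scoped Real Manifold MatrixGroups Topology PowerSeries

namespace WZx

theorem smul {k : ℤ} (g : ModularForm 𝒮ℒ k) (γ : SL(2, ℤ)) (z : ℍ) :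
    g (γ • z) = ((γ 1 0 : ℂ) * z + (γ 1 1 : ℂ)) ^ k * g z := by
  have h := SlashInvariantForm.slash_action_eqn' (Γ := 𝒮ℒ) g
    (γ := Matrix.SpecialLinearGroup.mapGL ℝ γ) (MonoidHom.mem_range.2 ⟨γ, rfl⟩) z
  refine Eq.trans h ?_
  simp

theorem tr (f : ℍ → ℂ) (γ : SL(2, ℤ)) (z : ℍ) : wz f (γ • z) = wz (sl2 f γ) z := by
  have h1 := M6bx.den_ne γ z
  have h2 := ModularForm.discriminant_ne_zero z
  rw [wz, wz, sl2, M6bx.disc_smul, smul, smul, zpow_ofNat, zpow_ofNat]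
  field_simp

theorem conv {b : ℚ⟦X⟧} {f : ℍ → ℂ}
    (h : ∀ z : ℍ, HasSum (fun n : ℕ => ((PowerSeries.coeff n b : ℚ) : ℂ) * nome z ^ n) (f z)) :
    ∃ α, Conv (cx b) α ∧ ∀ z, α (nome z) = f z := by
  have e : ∀ n, PowerSeries.coeff n (cx b) = ((PowerSeries.coeff n b : ℚ) : ℂ) := fun n => by
    simp [cx, PowerSeries.coeff_map]
  refine ⟨fun q => ∑' n : ℕ, PowerSeries.coeff n (cx b) * q ^ n, fun q hq => ?_, fun z => ?_⟩
  · refine Summable.hasSum ?_
    by_cases h0 : q = 0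
    · subst h0
      exact (hasSum_single 0 fun n hn => by simp [hn]).summable
    · obtain ⟨z, rfl⟩ := M5x.exists_nome hq h0
      simp only [e]
      exact (h z).summable
  · simp only [e]
    exact (h z).tsum_eq

end WZx

open WZx

theorem wzf : S_WZ := by
  intro f b hf hb hs
  refine ⟨⟨?_, fun γ => ⟨2 * π, ?_⟩⟩, ?_, tr f⟩
  · exact ((hf.mul (ModularFormClass.holo ModularForm.E₄)).mul
      (ModularFormClass.holo ModularForm.E₆)).div (ModularFormClass.holo CuspForm.discriminant)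
      ModularForm.discriminant_ne_zero
  · simp only [tr]
    have h2 := ModularForm.exp_isBigO_discriminant.inv_rev
      (Eventually.of_forall fun z h => absurd h (Real.exp_pos _).ne')
    have h3 := (IsBigO.mul (IsBigO.mul (hb γ) (ModularFormClass.bdd_at_infty ModularForm.E₄))
      (ModularFormClass.bdd_at_infty ModularForm.E₆)).mul h2
    refine h3.congr (fun z => by rw [wz, div_eq_mul_inv]) fun z => ?_
    rw [← Real.exp_neg]
    simp
  · obtain ⟨⟨a4, h4⟩, a6, h6⟩ := m5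
    obtain ⟨T, ⟨a, e, α, ε, c1, c2, c3, c4⟩, -⟩ := (m5b t1 m5).2 a4 _ h4
    obtain ⟨β, d1, d2⟩ := conv hs
    obtain ⟨α6, d3, d4⟩ := M5x.conv_of h6
    refine ⟨iq (b * M5x.zm a6) * T, b * M5x.zm a6 * a, e, fun q => β q * α6 q * α q, ε, ?_, c2, by
      rw [mul_assoc, c3, ← map_mul], fun z => ⟨(c4 z).1, ?_⟩⟩
    · simpa only [M5x.cx_eq, map_mul] using t1.mul _ _ _ _ (t1.mul _ _ _ _ d1 d3) c1
    · beta_reduce
      rw [d2, d4, ← (c4 z).2, wz]
      ring

end Pool.Agent.MP_b2c033_nt.UG
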