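import Pool.Agent.MP_b2c033_nt.U.Spec
import Pool.Agent.MP_b2c033_nt.UG.RAT
import Pool.Agent.MP_b2c033_nt.UG.CST
import Pool.Agent.MP_b2c033_nt.UG.CLS
import Pool.Agent.MP_b2c033_nt.UG.EISP
import Pool.Agent.MP_b2c033_nt.UG.PAIR
import Pool.Agent.MP_b2c033_nt.UG.WZ
import Pool.Agent.MP_b2c033_nt.UG.GAL
import Pool.Agent.MP_b2c033_nt.UG.CYC
import Pool.Agent.MP_b2c033_nt.UG.EXP
import Pool.Agent.MP_b2c033_nt.UG.GALC
import Pool.Agent.MP_b2c033_nt.UG.G01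

/-! The Galois action on expansions at the cusps. -/

namespace Pool.Agent.MP_b2c033_nt.UG

theorem galAll : S_GALC := galc exp (galb rat (eisp (cls cst) pair) pair wzf cyc)

theorem gal0 : U.S_Gal0 := fun V _ _ C ι φ hA hR => g0 galAll cyc V C ι φ hR hA

theorem gal1 : U.S_Gal1 := fun V _ _ C ι φ hA hR => g1 galAll cyc V C ι φ hR hA

end Pool.Agent.MP_b2c033_nt.UG
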