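import Pool.Agent.MP_b2c033_nt.UG.Spec

/-! The two consequences of the Galois action for the abstract space. -/

namespace Pool.Agent.MP_b2c033_nt.UG

open Polynomial CongruenceSubgroup
open Pool.Agent.MP_b2c033_nt.U
open scoped MatrixGroups

namespace G01x

variable {L M : ℕ} {d : ℤ} {γ γ' δ δ' : SZ}

theorem map_iff : Matrix.SpecialLinearGroup.map (Int.castRingHom (ZMod L)) γ =
    Matrix.SpecialLinearGroup.map (Int.castRingHom (ZMod L)) γ' ↔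
      ∀ i j, ((γ i j : ℤ) : ZMod L) = γ' i j := Matrix.SpecialLinearGroup.ext_iff _ _

theorem eqL : γ⁻¹ * γ' ∈ Gamma L ↔ ∀ i j, ((γ i j : ℤ) : ZMod L) = γ' i j := by
  rw [Gamma_mem', map_mul, map_inv, inv_mul_eq_one, map_iff]

theorem eqR : γ * γ'⁻¹ ∈ Gamma L ↔ ∀ i j, ((γ i j : ℤ) : ZMod L) = γ' i j := by
  rw [Gamma_mem', map_mul, map_inv, mul_inv_eq_one, map_iff]

theorem unit (hd : IsCoprime d L) : IsUnit (d : ZMod L) := by
  obtain ⟨u, w, h⟩ := hd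
  have := congrArg (Int.cast : ℤ → ZMod L) h
  exact IsUnit.of_mul_eq_one_right (u : ZMod L) (by simpa using this)

theorem tw_iff (hd : IsCoprime d L) (h : Tw L d γ δ) (h' : Tw L d γ' δ') :
    (∀ i j, ((δ i j : ℤ) : ZMod L) = δ' i j) ↔ ∀ i j, ((γ i j : ℤ) : ZMod L) = γ' i j := by
  simp only [Tw, ← ZMod.intCast_eq_intCast_iff, Int.cast_mul] at h h'
  simp only [Fin.forall_fin_two]
  rw [h.1, h.2.1, ← h.2.2.1, h.2.2.2, h'.1, h'.2.1, ← h'.2.2.1, h'.2.2.2, (unit hd).mul_left_inj,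
    (unit hd).mul_left_inj]

theorem tw_mono (hM : M ∣ L) (h : Tw L d γ δ) : Tw M d γ δ :=
  have k : (M : ℤ) ∣ L := Int.natCast_dvd_natCast.2 hM
  ⟨h.1.of_dvd k, h.2.1.of_dvd k, h.2.2.1.of_dvd k, h.2.2.2.of_dvd k⟩

theorem ex_tw (A : AvFacts) (hd : IsCoprime d L) (γ : SZ) : ∃ δ, Tw L d γ δ := by
  obtain ⟨u, w, h⟩ := hd
  obtain ⟨δ, h1, h2, h3, h4⟩ := A.lift L (γ 0 0) (γ 0 1 * d) (γ 1 0 * u) (γ 1 1)
    (Int.modEq_iff_dvd.2 ⟨-(γ 0 1 * γ 1 0 * w), by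
      linear_combination γ 0 1 * γ 1 0 * h - detZ γ⟩)
  exact ⟨δ, h1, h2, (h3.mul_right d).trans
    (Int.modEq_iff_dvd.2 ⟨γ 1 0 * w, by linear_combination -γ 1 0 * h⟩), h4⟩

theorem cast_mono (hM : M ∣ L) {x y : ℤ} (h : (x : ZMod L) = (y : ℤ)) : (x : ZMod M) = (y : ℤ) :=
  (ZMod.intCast_eq_intCast_iff _ _ _).2 (((ZMod.intCast_eq_intCast_iff _ _ _).1 h).of_dvd
    (Int.natCast_dvd_natCast.2 hM))

theorem g1_mono (hM : M ∣ L) (h : γ ∈ Gamma1 L) : γ ∈ Gamma1 M := by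
  rw [Gamma1_mem] at h ⊢
  exact ⟨by simpa using cast_mono hM (y := 1) (by simpa using h.1),
    by simpa using cast_mono hM (y := 1) (by simpa using h.2.1),
    by simpa using cast_mono hM (y := 0) (by simpa using h.2.2)⟩

theorem g_g1 (h : γ ∈ Gamma L) : γ ∈ Gamma1 L := by
  rw [Gamma_mem] at h
  exact (Gamma1_mem _ _).2 ⟨h.1, h.2.2.2, h.2.2.1⟩

theorem act_eq {V : Type} [NormedAddCommGroup V] [InnerProductSpace ℂ V] {C : CS V} {v : V}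
    (hv : C.Fix (Gamma1 M) v) (h : γ * γ'⁻¹ ∈ Gamma1 M) : C.act (ofZ γ) v = C.act (ofZ γ') v := by
  rw [← inv_mul_cancel_right γ γ', ofZ_mul, C.act_mul _ _ _ (by simp) (by simp), hv _ h]

end G01x

open G01x

theorem g0 (h : S_GALC) (c : S_CYC) : S_G0 := by
  intro V _ _ C ι φ hR A v M d γ γ' ν M0 hv hr hd ht
  rcases Nat.lt_or_ge 1 M with M1 | M1
  · have hN : IsCoprime d ((M ^ 3 : ℕ) : ℤ) := by
      rw [Nat.cast_pow]
      exact hd.pow_right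
    have dv : M ∣ M ^ 3 := dvd_pow_self M (by norm_num)
    obtain ⟨δ, hδ⟩ := ex_tw A hN γ
    obtain ⟨P, h1, h2⟩ := h V C ι φ hR v (M ^ 3) d γ δ ν
      (le_trans (by norm_num) (Nat.pow_le_pow_left M1 3)) (fun x hx => hv x (g1_mono dv hx))
      hr hN hδ
    rw [← act_eq hv (g_g1 (eqR.2 ((tw_iff hd (tw_mono dv hδ) ht).2 fun _ _ => rfl))), h1, h2]
    exact c.zero _ d P (by positivity) hN
  · obtain rfl : M = 1 := by omega
    rw [act_eq hv (g_g1 (eqR.2 fun _ _ => Subsingleton.elim _ _) : γ' * γ⁻¹ ∈ _)]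

theorem g1 (h : S_GALC) (c : S_CYC) : S_G1 := by
  intro V _ _ C ι φ hR A v M N ν M0 hN hv hr
  have dv : M ∣ 5 * M := dvd_mul_left _ _
  have L0 : 0 < 5 * M := by omega
  have f1 : C.Fix (Gamma1 M) v := fun x hx => hv x (Gamma1_in_Gamma0 M hx)
  have f2 : C.Fix (Gamma1 (5 * M)) v := fun x hx => f1 x (g1_mono dv hx)
  have lv : ∀ L, C.Fix (Gamma1 L) v → Lev L fun γ => C.β ν (C.act (ofZ γ) v) :=
    fun L hL γ δ hδ => congrArg _ (act_eq hL (g_g1 ((Gamma_normal L).conj_mem δ hδ γ)))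
  rw [← A.lev ℂ _ M (5 * M) _ L0 dv (lv M f1)]
  refine c.fix (5 * M) _ L0 fun d hd => ?_
  choose ψ hψ using ex_tw A hd
  choose P h1 h2 using fun γ => h V C ι φ hR v (5 * M) d γ (ψ γ) ν (by omega) f2 hr hd (hψ γ)
  obtain ⟨s, -, -, -, -, hs⟩ := A.fin (Gamma0 N) (5 * M) L0
  have e : ∀ z : ℂ, aeval z ((s.card : ℚ)⁻¹ • ∑ γ ∈ s, P γ) =
      (s.card : ℝ)⁻¹ • ∑ γ ∈ s, aeval z (P γ) := fun z => by
    rw [map_smul, map_sum]
    simp [Rat.smul_def]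
  refine ⟨(s.card : ℚ)⁻¹ • ∑ γ ∈ s, P γ, by simp only [e, hs, h1], ?_⟩
  rw [← A.perm ℂ (Gamma0 N) (5 * M) _ ψ L0 (lv _ f2) (fun γ hγ => ?_)
    fun γ _ γ' _ q => eqL.2 ((tw_iff hd (hψ γ) (hψ γ')).1 (eqL.1 q))]
  · simp only [e, hs, h2]
  · have k := (ZMod.intCast_eq_intCast_iff _ _ _).2 (tw_mono (hN.trans dv) (hψ γ)).2.2.1
    rw [Gamma0_mem] at hγ ⊢
    rw [hγ, Int.cast_mul] at k
    exact (unit (hd.of_isCoprime_of_dvd_right
      (Int.natCast_dvd_natCast.2 (hN.trans dv)))).mul_left_eq_zero.1 k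

end Pool.Agent.MP_b2c033_nt.UG
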