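import Pool.Agent.MP_b2c033_nt.UG.Spec

/-! The congruences of Honda in the abstract space, and the facts on the traces of Frobenius. -/

namespace Pool.Agent.MP_b2c033_nt.UG

open Filter CongruenceSubgroup
open UpperHalfPlane hiding I
open Pool.Agent.MP_b2c033_nt.H87
open scoped Real Manifold MatrixGroups Topology

noncomputable section

namespace HONx

lemma ofZ_T : U.ofZ ModularGroup.T = U.Tr ((1 : ℕ) : ℚ) := by
  ext <;> simp [U.ofZ, U.Tr, ModularGroup.T]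

lemma T_mem (N : ℕ) : ModularGroup.T ∈ Gamma1 N := by
  rw [Gamma1_mem]
  simp [ModularGroup.T]

lemma gp_eq (W : WeierstrassCurve ℤ) (p : ℕ) : U.gp W p = UH.epz W p * p := by
  unfold U.gp UH.epz
  split_ifs <;> simp

lemma dv_eq {β : ℚ → ℂ} {r : ℚ → ℚ} (hr : ∀ ν, β ν = r ν)
    (h : ∀ ν : ℚ, β ν ≠ 0 → ∃ n : ℕ, ν = n / (1 : ℕ)) {d : ℕ} (hd : d ≠ 0) (n : ℕ) :
    β (n / d) = (UH.dv (fun m : ℕ => r m) d n : ℚ) := by
  have d0 : (d : ℚ) ≠ 0 := Nat.cast_ne_zero.2 hd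
  unfold UH.dv
  split_ifs with q
  · rw [hr, ← Nat.cast_div q d0]
  · rw [Rat.cast_zero]
    by_contra e
    obtain ⟨m, hm⟩ := h _ e
    rw [Nat.cast_one, div_one, div_eq_iff d0] at hm
    exact q (Dvd.intro_left m (by exact_mod_cast hm.symm))

end HONx

theorem apf (h : UH.S_H4) (W : WeierstrassCurve ℤ) : U.ApFacts W :=
  ⟨h.le W, fun p hp q => (h.hasse W p hp q).le, h.cusp W, h.node W⟩

open HONx in
theorem hon (e : S_EXP) (h : UH.S_H) : S_HON := by
  intro V _ _ C ι φ W Λ R hW hL N G N0 fix rat per p n hp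
  choose r hr using rat
  have tr : ∀ (γ : SL(2, ℤ)) (z : ℍ),
      φ G (γ • z) = φ (C.act (U.ofZ γ) G) z + C.per (U.ofZ γ) G := fun γ z => by
    rw [← e.mob]
    exact R.per _ G z (by simp)
  have hP : UH.Per Λ N (φ G) := by
    refine ⟨mdifferentiable_iff.2 fun z hz =>
      (R.der G ⟨z, hz⟩).differentiableAt.differentiableWithinAt, fun γ hγ z => ?_, fun γ => ?_⟩
    · rw [tr, fix γ hγ, add_sub_cancel_left]
      exact per γ hγ
    · simp only [tr]
      exact (e.bdd V C ι φ _ R).2.add (const_boundedAtFilter _ _)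
  obtain ⟨s1, -, s3⟩ := e.exp V C ι φ 1 G R one_pos (ofZ_T ▸ fix _ (T_mem N))
  have b0 : r ((0 : ℕ) : ℚ) = 0 := by
    have := (hr 0).symm.trans (C.β_neg 0 G le_rfl)
    exact_mod_cast this
  obtain ⟨a, s, hs, k⟩ := (h W Λ N (φ G) (fun m => r m) hW.ne hW.min hL.1 hL.2 N0 hP b0
    fun z => by simpa [hr, qN, nome] using s3 z).2 p hp n
  have s0 : (s : ℚ) ≠ 0 := Int.cast_ne_zero.2 fun q => hs (q ▸ dvd_zero _)
  refine ⟨a / s, fun q => hs ((Int.natCast_dvd_natCast.2 q).trans ?_), ?_⟩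
  · rw [← Rat.divInt_eq_div]
    exact Rat.den_dvd a s
  have k1 := dv_eq hr s1 hp.ne_zero n
  have k2 := dv_eq hr s1 (pow_ne_zero 2 hp.ne_zero) n
  rw [Nat.cast_pow] at k2
  have k3 := congrArg (fun x : ℚ => (x : ℂ)) ((eq_div_iff s0).2 k)
  rw [k1, k2, hr, gp_eq, show U.ap W p = UH.apz W p from rfl]
  push_cast at k3 ⊢
  rw [k3]
  ring

end

end Pool.Agent.MP_b2c033_nt.UG
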