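import Pool.Agent.MP_b2c033_nt.UH.Spec
import Pool.Agent.MP_b2c033_nt.U.Core

/-! Row statements for the Galois action on expansions at the cusps, and the links to the abstract
space of cusp forms. -/

namespace Pool.Agent.MP_b2c033_nt.UG

open Filter Polynomial CongruenceSubgroup
open UpperHalfPlane hiding I
open Pool.Agent.MP_b2c033_nt.H87
open scoped Real Manifold MatrixGroups Topology PowerSeries

noncomputable section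

/-- the normalising constant of the Eisenstein series -/
def kap : ℂ := ((-2 * π * Complex.I) ^ 12 / (Nat.factorial 11 : ℕ))⁻¹

/-- the nome of level `N` -/
def qN (N : ℕ) (z : ℍ) : ℂ := Complex.exp (2 * π * Complex.I * z / N)

/-- expansion in the nome of level `N` -/
def ExpN (N : ℕ) (a : ℂ⟦X⟧) (φ : ℍ → ℂ) : Prop :=
  ∀ z : ℍ, HasSum (fun n : ℕ => PowerSeries.coeff n a * qN N z ^ n) (φ z)

/-- two functions whose expansions are the images of one series under two embeddings -/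
def Pair {K : Type} [Field K] (i i' : K →+* ℂ) (N : ℕ) (φ φ' : ℍ → ℂ) : Prop :=
  ∃ a : K⟦X⟧, ExpN N (PowerSeries.map i a) φ ∧ ExpN N (PowerSeries.map i' a) φ'

/-- the generator of the function field -/
def tt (N : ℕ) (z : ℍ) : ℂ := kap * Eis N 1 0 z / ModularForm.discriminant z

def S_E10 : Prop := ∀ N : ℕ, 5 ≤ N → ∃ a : ℤ⟦X⟧, ZExp a fun z => kap * Eis N 1 0 z

/-- a relation with rational coefficients -/
def S_RAT : Prop := ∀ (N : ℕ) (u : ℍ → ℂ) (F : L), 5 ≤ N → Mer u →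
  (∀ γ ∈ Gamma1 N, ∀ z, u (γ • z) = u z) → Rep u F →
  ∃ (n : ℕ) (A B : ℕ → ℚ[X]),
    (∀ z, u z * ∑ i ∈ Finset.range n, aeval (jj z) (B i) * tt N z ^ i =
      ∑ i ∈ Finset.range n, aeval (jj z) (A i) * tt N z ^ i) ∧
    ∃ z, ∑ i ∈ Finset.range n, aeval (jj z) (B i) * tt N z ^ i ≠ 0

/-- the sum of the Lipschitz series is a rational function -/
def S_EUL : Prop := ∃ P : ℚ[X], ∀ w : ℂ, ‖w‖ < 1 →
  HasSum (fun n : ℕ => (n : ℂ) ^ 11 * w ^ n) (aeval w P / (1 - w) ^ 12)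

/-- the constant terms -/
def S_CST : Prop := ∃ P : ℚ[X], ∀ x : ℝ, (∀ n : ℤ, x ≠ n) →
  kap * ∑' n : ℤ, (((x : ℂ) + n) ^ 12)⁻¹ =
    aeval (Complex.exp (2 * π * Complex.I * x)) P / (1 - Complex.exp (2 * π * Complex.I * x)) ^ 12

/-- the sum over one class of lattice points -/
def Cls (N : ℕ) (m n : ℤ) (z : ℍ) : ℂ :=
  ∑' v : Fin 2 → ℤ, if (v 0 : ZMod N) = (m : ZMod N) ∧ (v 1 : ZMod N) = (n : ZMod N)
    then EisensteinSeries.eisSummand 12 v z else 0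

def S_CLS : Prop := ∀ (K : Type) [Field K] (i i' : K →+* ℂ) (N : ℕ) (d m n : ℤ) (ζ : K), 2 ≤ N →
  IsCoprime d N → i ζ = U.ee (1 / N) → i' ζ = U.ee (d / N) →
  ¬ ((m : ZMod N) = 0 ∧ (n : ZMod N) = 0) →
  Pair i i' N (fun z => kap * Cls N m n z) fun z => kap * Cls N m (d * n) z

def S_EISP : Prop := ∀ (K : Type) [Field K] (i i' : K →+* ℂ) (N : ℕ) (d : ℤ) (ζ : K)
  (l₀ l₁ l₁' : ZMod N), 2 ≤ N → IsCoprime d N → i ζ = U.ee (1 / N) → i' ζ = U.ee (d / N) →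
  l₁' * d = l₁ → Pair i i' N (fun z => kap * Eis N l₀ l₁ z) fun z => kap * Eis N l₀ l₁' z

structure S_PAIR : Prop where
  add : ∀ (K : Type) [Field K] (i i' : K →+* ℂ) (N : ℕ) (φ φ' ψ ψ' : ℍ → ℂ), 0 < N →
    Pair i i' N φ φ' → Pair i i' N ψ ψ' → Pair i i' N (fun z => φ z + ψ z) fun z => φ' z + ψ' z
  mul : ∀ (K : Type) [Field K] (i i' : K →+* ℂ) (N : ℕ) (φ φ' ψ ψ' : ℍ → ℂ), 0 < N →
    Pair i i' N φ φ' → Pair i i' N ψ ψ' → Pair i i' N (fun z => φ z * ψ z) fun z => φ' z * ψ' z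
  const : ∀ (K : Type) [Field K] (i i' : K →+* ℂ) (N : ℕ) (c : ℚ),
    Pair i i' N (fun _ => (c : ℂ)) fun _ => (c : ℂ)
  int : ∀ (K : Type) [Field K] (i i' : K →+* ℂ) (N : ℕ) (a : ℤ⟦X⟧) (φ : ℍ → ℂ), 0 < N →
    ZExp a φ → Pair i i' N φ φ
  div : ∀ (K : Type) [Field K] (i i' : K →+* ℂ) (N : ℕ) (f f' φ φ' ψ ψ' : ℍ → ℂ) (b b' : ℂ⟦X⟧),
    0 < N → ExpN N b f → ExpN N b' f' → Pair i i' N φ φ' → Pair i i' N ψ ψ' → (∃ z, ψ z ≠ 0) →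
    (∀ z, f z * ψ z = φ z) → (∀ z, f' z * ψ' z = φ' z) →
    ∃ c : K⟦X⟧, PowerSeries.map i c = b ∧ PowerSeries.map i' c = b'

/-- the slash action in weight two -/
def sl2 (f : ℍ → ℂ) (γ : SL(2, ℤ)) (z : ℍ) : ℂ := f (γ • z) / ((γ 1 0 : ℂ) * z + (γ 1 1 : ℂ)) ^ 2

/-- the weight zero function attached to a form of weight two -/
def wz (f : ℍ → ℂ) (z : ℍ) : ℂ :=
  f z * ModularForm.E₄ z * ModularForm.E₆ z / ModularForm.discriminant z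

def S_WZ : Prop := ∀ (f : ℍ → ℂ) (b : ℚ⟦X⟧), MDifferentiable 𝓘(ℂ) 𝓘(ℂ) f →
  (∀ γ, IsBoundedAtImInfty (sl2 f γ)) →
  (∀ z : ℍ, HasSum (fun n : ℕ => ((PowerSeries.coeff n b : ℚ) : ℂ) * nome z ^ n) (f z)) →
  Mer (wz f) ∧ (∃ F, Rep (wz f) F) ∧ ∀ (γ : SL(2, ℤ)) (z : ℍ), wz f (γ • z) = wz (sl2 f γ) z

/-- the Galois action on expansions -/
def S_GAL : Prop := ∀ (N : ℕ) (f : ℍ → ℂ) (b : ℚ⟦X⟧) (d : ℤ) (γ γ' : SL(2, ℤ)) (β β' : ℂ⟦X⟧),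
  5 ≤ N → MDifferentiable 𝓘(ℂ) 𝓘(ℂ) f → (∀ δ ∈ Gamma1 N, sl2 f δ = f) →
  (∀ δ, IsBoundedAtImInfty (sl2 f δ)) →
  (∀ z : ℍ, HasSum (fun n : ℕ => ((PowerSeries.coeff n b : ℚ) : ℂ) * nome z ^ n) (f z)) →
  IsCoprime d N → U.Tw N d γ γ' → ExpN N β (sl2 f γ) → ExpN N β' (sl2 f γ') →
  ∀ n, ∃ P : ℚ[X], PowerSeries.coeff n β = aeval (U.ee (1 / N)) P ∧
    PowerSeries.coeff n β' = aeval (U.ee (d / N)) P

def S_GALa : Prop := S_RAT → S_EISP → S_PAIR → S_WZ → S_GAL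

structure S_CYC : Prop where
  zero : ∀ (N : ℕ) (d : ℤ) (P : ℚ[X]), 0 < N → IsCoprime d N →
    (aeval (U.ee (d / N)) P = 0 ↔ aeval (U.ee (1 / N)) P = 0)
  fix : ∀ (N : ℕ) (x : ℂ), 0 < N → (∀ d : ℤ, IsCoprime d N →
    ∃ P : ℚ[X], x = aeval (U.ee (1 / N)) P ∧ x = aeval (U.ee (d / N)) P) → ∃ r : ℚ, x = r
  field : ∀ (N : ℕ) (d : ℤ), 0 < N → IsCoprime d N → ∃ (K : Type) (_ : Field K) (i i' : K →+* ℂ)
    (ζ : K), i ζ = U.ee (1 / N) ∧ i' ζ = U.ee (d / N) ∧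
    ∀ k : K, ∃ P : ℚ[X], i k = aeval (U.ee (1 / N)) P ∧ i' k = aeval (U.ee (d / N)) P

def S_GALb : Prop := S_RAT → S_EISP → S_PAIR → S_WZ → S_CYC → S_GAL

/-! ## Links with the abstract space -/

structure S_EXP : Prop where
  mob : ∀ (γ : SL(2, ℤ)) (z : ℍ), U.mob (U.ofZ γ) z = γ • z
  sl : ∀ (γ : SL(2, ℤ)) (f : ℍ → ℂ), U.sl (U.ofZ γ) f = sl2 f γ
  exp : ∀ (V : Type) [NormedAddCommGroup V] [InnerProductSpace ℂ V] (C : U.CS V)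
    (ι φ : V →ₗ[ℂ] ℍ → ℂ) (N : ℕ) (w : V), U.Realis C ι φ → 0 < N → C.act (U.Tr N) w = w →
    (∀ ν : ℚ, C.β ν w ≠ 0 → ∃ n : ℕ, ν = n / N) ∧
    ExpN N (PowerSeries.mk fun n => C.β (n / N) w) (ι w) ∧
    ExpN N (PowerSeries.mk fun n => C.β (n / N) w / ((n / N : ℚ) : ℂ)) (φ w)
  bdd : ∀ (V : Type) [NormedAddCommGroup V] [InnerProductSpace ℂ V] (C : U.CS V)
    (ι φ : V →ₗ[ℂ] ℍ → ℂ) (w : V), U.Realis C ι φ →
    IsBoundedAtImInfty (ι w) ∧ IsBoundedAtImInfty (φ w)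

def S_GALC : Prop := ∀ (V : Type) [NormedAddCommGroup V] [InnerProductSpace ℂ V] (C : U.CS V)
  (ι φ : V →ₗ[ℂ] ℍ → ℂ), U.Realis C ι φ → ∀ (v : V) (N : ℕ) (d : ℤ) (γ γ' : U.SZ) (ν : ℚ), 5 ≤ N →
  C.Fix (Gamma1 N) v → C.Rat v → IsCoprime d N → U.Tw N d γ γ' →
  ∃ P : ℚ[X], C.β ν (C.act (U.ofZ γ) v) = aeval (U.ee (1 / N)) P ∧
    C.β ν (C.act (U.ofZ γ') v) = aeval (U.ee (d / N)) P

def S_GALCa : Prop := S_EXP → S_GAL → S_GALC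

def S_G0 : Prop := ∀ (V : Type) [NormedAddCommGroup V] [InnerProductSpace ℂ V] (C : U.CS V)
  (ι φ : V →ₗ[ℂ] ℍ → ℂ), U.Realis C ι φ → U.AvFacts → C.Gal0

def S_G1 : Prop := ∀ (V : Type) [NormedAddCommGroup V] [InnerProductSpace ℂ V] (C : U.CS V)
  (ι φ : V →ₗ[ℂ] ℍ → ℂ), U.Realis C ι φ → U.AvFacts → C.Gal1

def S_HON : Prop := ∀ (V : Type) [NormedAddCommGroup V] [InnerProductSpace ℂ V] (C : U.CS V)
  (ι φ : V →ₗ[ℂ] ℍ → ℂ) (W : WeierstrassCurve ℤ) (Λ : PeriodPair), U.Realis C ι φ → U.RedMin W →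
  U.IsLat W Λ → U.Hon C W (U.lat Λ)

end

end Pool.Agent.MP_b2c033_nt.UG
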